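import Pool.Agent.H72.FA.Lip

/-!
# The lower bound for the area: Stokes and Fubini (helper72)
-/

set_option autoImplicit false

open MeasureTheory Metric Set Filter Topology InnerProductGeometry Matrix Asymptotics

namespace Pool.Agent.H72.FA

open Pool.Agent.H241R3.FV Pool.Agent.N526.CP Pool.Agent.N979.CP

/-- the value of the calibration -/
noncomputable def Val (s b t : ℝ) (K : ℝ → ℝ) : ℝ :=
  2 * (∫ θ, (∫ y in ball (0 : E 2) 1, (fderiv ℝ (Wm s t K θ) y).det) ∂(sg 2)) -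
    (∫ y in ball (0 : E 2) 1, (fderiv ℝ (fun y : E 2 => Hf (s • y)) y).det) +
    b * ((∫ y in ball (0 : E 2) 1, (fderiv ℝ (fun y : E 2 => zf 1 t • y) y).det) -
      ∫ y in ball (0 : E 2) 1, (fderiv ℝ (fun y : E 2 => zf 1 s • y) y).det)

/-- Boundary points are not closer in `M` than in the circle. -/
def NonShort {M : Type} [MetricSpace M] (S : OFill 2 M) : Prop :=
  ∀ x y : Sph 2, angle (x : E 2) (y : E 2) ≤ dist (S.bd x) (S.bd y)

theorem main_t {M : Type} [MetricSpace M] [CompactSpace M] (S : OFill 2 M) (hS : NonShort S)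
    {s b t : ℝ} {K L : ℝ → ℝ} (hA : Adm s b K L) (hst : s < t) (ht1 : t < 1)
    (hz : zf 1 t ≤ 2 / Real.pi) : ENNReal.ofReal (Val s b t K) ≤ S.vol := by
  by_cases hvol : S.vol = ⊤
  · rw [hvol]
    exact le_top
  have hvol' : S.vol < ⊤ := lt_top_iff_ne_top.2 hvol
  have hprob := prob
  have ht0 : 0 < t := hA.s0.trans hst
  have hP : Par 1 t t 1 := ⟨ht0, ht1, ht0, ht1, one_pos, (one_mul _).symm⟩
  obtain ⟨g, hg⟩ := Pool.Agent.N787.FBFAMG.main 1 le_rfl M S hS t t 1 hP
  obtain ⟨C1, h1⟩ := F_lip hA hg hz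
  obtain ⟨C2, h2⟩ := HX_lip hA hg
  obtain ⟨C3, h3⟩ := W_lip hA ht0 ht1
  obtain ⟨C4, h4⟩ := Hs_lip hA
  obtain ⟨C5, h5⟩ := sm_lip (zf 1 t)
  obtain ⟨C6, h6⟩ := sm_lip (zf 1 s)
  have h7 := Y_lipW hg
  have h8 := P_lipW hA hg
  have hb := bd_data hA hst ht1 hg
  -- Stokes
  have hst1 : ∀ θ, jint S (Fm s K g θ) =
      ∫ y in ball (0 : E 2) 1, (fderiv ℝ (Wm s t K θ) y).det := fun θ =>
    Fin.sto 2 (by omega) M S hvol' (max C1 C3) (Fm s K g θ) (Wm s t K θ)
      ((h1 θ).weaken (le_max_left _ _)) ((h3 θ).weaken (le_max_right _ _))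
      (fun x => F_bd hA hst ht1 hg θ x)
  have hst2 : jint S (Hf ∘ Xh s g) =
      ∫ y in ball (0 : E 2) 1, (fderiv ℝ (fun y : E 2 => Hf (s • y)) y).det :=
    Fin.sto 2 (by omega) M S hvol' (max C2 C4) _ _ (h2.weaken (le_max_left _ _))
      (h4.weaken (le_max_right _ _)) (fun x => by
        simp only [Function.comp_apply]
        rw [(hb x).2.2.2.2])
  have hst3 : jint S (Yf g) =
      ∫ y in ball (0 : E 2) 1, (fderiv ℝ (fun y : E 2 => zf 1 t • y) y).det :=
    Fin.sto 2 (by omega) M S hvol' (max 1 C5) _ _ (h7.weaken (le_max_left _ _))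
      (h5.weaken (le_max_right _ _)) (fun x => Y_bd hg x)
  have hst4 : jint S (fun q => pj (zf 1 s) (Yf g q)) =
      ∫ y in ball (0 : E 2) 1, (fderiv ℝ (fun y : E 2 => zf 1 s • y) y).det :=
    Fin.sto 2 (by omega) M S hvol' (max 2 C6) _ _ (h8.weaken (le_max_left _ _))
      (h6.weaken (le_max_right _ _)) (fun x => (hb x).2.2.2.1)
  -- Fubini
  obtain ⟨-, hF2, hF3⟩ := Fin.fub 1 le_rfl M S hvol' C1 (Fm s K g) h1 (F_cont hA hg) hprob
  have hcst : ∀ (C : NNReal) (v : M → E 2), LipschitzWith C v → ∀ i,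
      IntegrableOn (fun p => (fderiv ℝ (v ∘ (S.chart i).map) p).det) (S.chart i).D := by
    intro C v hv i
    obtain ⟨-, hG2, -⟩ := Fin.fub 1 le_rfl M S hvol' C (fun _ => v) (fun _ => hv)
      (hv.continuous.comp continuous_snd) hprob
    have h := hG2 i
    simp only [integral_const] at h
    have h0 : (sg 2).real univ = 1 := by simp
    change IntegrableOn (fun p => (sg 2).real univ •
      (fderiv ℝ (v ∘ (S.chart i).map) p).det) (S.chart i).D at h
    simp only [h0, one_smul] at h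
    exact h
  have hI2 := hcst _ _ h2
  have hI3 := hcst _ _ h7
  have hI4 := hcst _ _ h8
  have e1 : Val s b t K = ∑ i, ∫ p in (S.chart i).D,
      (2 * ∫ θ, (fderiv ℝ (Fm s K g θ ∘ (S.chart i).map) p).det ∂(sg 2) -
      (fderiv ℝ (Hf ∘ Xh s g ∘ (S.chart i).map) p).det +
      b * ((fderiv ℝ (Yf g ∘ (S.chart i).map) p).det -
        (fderiv ℝ ((fun q => pj (zf 1 s) (Yf g q)) ∘ (S.chart i).map) p).det)) := by
    unfold Val
    rw [← hst2, ← hst3, ← hst4]
    simp only [← hst1]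
    have hF3' : ∫ θ, jint S (Fm s K g θ) ∂(sg 2) =
      ∑ i, ∫ p in (S.chart i).D, ∫ θ, (fderiv ℝ (Fm s K g θ ∘ (S.chart i).map) p).det ∂(sg 2) :=
      hF3
    rw [hF3']
    unfold jint
    rw [Finset.mul_sum, ← Finset.sum_sub_distrib, ← Finset.sum_sub_distrib, Finset.mul_sum,
      ← Finset.sum_add_distrib]
    refine Finset.sum_congr rfl fun i _ => ?_
    have k1 : IntegrableOn (fun p => 2 * ∫ θ, (fderiv ℝ (Fm s K g θ ∘ (S.chart i).map) p).det
      ∂(sg 2)) (S.chart i).D := (hF2 i).const_mul _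
    have k2 := hI2 i
    have k34 : IntegrableOn (fun p => b * ((fderiv ℝ (Yf g ∘ (S.chart i).map) p).det -
        (fderiv ℝ ((fun q => pj (zf 1 s) (Yf g q)) ∘ (S.chart i).map) p).det)) (S.chart i).D :=
      ((hI3 i).sub (hI4 i)).const_mul _
    have m1 := integral_add (k1.sub k2) k34
    have m2 := integral_sub k1 k2
    have m3 := integral_sub (hI3 i) (hI4 i)
    simp only [Pi.sub_apply] at m1
    refine Eq.trans ?_ m1.symm
    refine Eq.trans ?_ (congrArg₂ (· + ·) m2.symm rfl)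
    rw [integral_const_mul, integral_const_mul, m3]
  rw [e1]
  refine (MAINb.ofReal_sum_le _ _).trans ?_
  unfold OFill.vol
  refine Finset.sum_le_sum fun i _ => ?_
  have k1 : IntegrableOn (fun p => 2 * ∫ θ, (fderiv ℝ (Fm s K g θ ∘ (S.chart i).map) p).det
      ∂(sg 2)) (S.chart i).D := (hF2 i).const_mul _
  have k2 := hI2 i
  have k34 : IntegrableOn (fun p => b * ((fderiv ℝ (Yf g ∘ (S.chart i).map) p).det -
        (fderiv ℝ ((fun q => pj (zf 1 s) (Yf g q)) ∘ (S.chart i).map) p).det)) (S.chart i).D :=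
      ((hI3 i).sub (hI4 i)).const_mul _
  refine (MAINb.ofReal_integral_le ((k1.sub k2).add k34)).trans ?_
  refine lintegral_mono_ae ?_
  have h2' := ae_restrict_of_ae (s := (S.chart i).D) (ptw hA hP hg hz i)
  filter_upwards [h2', ae_restrict_mem (S.chart i).meas_D] with p hp hpD
  exact ENNReal.ofReal_le_ofReal (hp ((S.chart i).D_sub hpD))

end Pool.Agent.H72.FA
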