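import Pool.Agent.H72.FA.Asm

/-!
# The value of the calibration (helper72)
-/

set_option autoImplicit false

open MeasureTheory Metric Set Filter Topology InnerProductGeometry Matrix Asymptotics

namespace Pool.Agent.H72.FA

open Pool.Agent.H241R3.FV Pool.Agent.N526.CP Pool.Agent.N979.CP

/-- the density of the boundary form -/
noncomputable def dens (s t : ℝ) (K : ℝ → ℝ) (u : ℝ) : ℝ :=
  (s * (√(1 - (s * u) ^ 2))⁻¹ + 1 / 2 * ((zf 1 t - zf 1 s) * K u)) *
    (t * (√(1 - (t * u) ^ 2))⁻¹)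

theorem one_sub_pos {s u : ℝ} (h0 : 0 < s) (h1 : s < 1) (hu : u ∈ Icc (-1 : ℝ) 1) :
    0 < 1 - (s * u) ^ 2 := by
  have := Pool.Agent.N622.FBJJ.sq_lt h0 h1 hu
  linarith

theorem det_W {s b t : ℝ} {K L : ℝ → ℝ} (hA : Adm s b K L) (ht0 : 0 < t) (ht1 : t < 1) (θ : Sph 2)
    {y : E 2} (hy : y ∈ ball (0 : E 2) 1) :
    (fderiv ℝ (Wm s t K θ) y).det = dens s t K (ip y θ) := by
  have hu : ip y θ ∈ Icc (-1 : ℝ) 1 :=
    abs_le.1 ((CAPV.ip_abs y θ).trans (mem_ball_zero_iff.1 hy).le)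
  have hq := one_sub_pos hA.s0 hA.s1 hu
  have hqt := one_sub_pos ht0 ht1 hu
  -- the two coordinates
  have dU : HasFDerivAt (fun y : E 2 => ip y θ) (innerSL ℝ (θ : E 2)) y := by
    have e : (fun y : E 2 => ip y θ) = (innerSL ℝ (θ : E 2) : E 2 →L[ℝ] ℝ) := by
      funext y
      unfold ip
      rw [real_inner_comm]
      rfl
    rw [e]
    exact (innerSL ℝ (θ : E 2)).hasFDerivAt
  have dZ : HasFDerivAt (fun y : E 2 => y 0 * (θ : E 2) 1 + y 1 * -((θ : E 2) 0))
      (innerSL ℝ (tp θ)) y := by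
    have e : (fun y : E 2 => y 0 * (θ : E 2) 1 + y 1 * -((θ : E 2) 0)) =
        (innerSL ℝ (tp θ) : E 2 →L[ℝ] ℝ) := by
      funext y
      rw [innerSL_apply_apply, inner2, tp_zero, tp_one]
      ring
    rw [e]
    exact (innerSL ℝ (tp θ)).hasFDerivAt
  have dq := (hasDerivAt_q hq).comp_hasFDerivAt y dU
  have dK := (hA.der _ hu).comp_hasFDerivAt y dU
  have d1 := dZ.mul ((dq.const_mul s).add ((dK.const_mul (zf 1 t - zf 1 s)).const_mul (1 / 2)))
  have ha := Real.hasDerivAt_arcsin (x := t * ip y θ) (by nlinarith) (by nlinarith)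
  have d2 := ha.comp_hasFDerivAt y (dU.const_mul t)
  have d1' := d1.congr_fderiv (g' := innerSL ℝ ((s * (√(1 - (s * ip y θ) ^ 2))⁻¹ +
      1 / 2 * ((zf 1 t - zf 1 s) * K (ip y θ))) • tp θ +
      ((y 0 * (θ : E 2) 1 + y 1 * -((θ : E 2) 0)) *
        (s * (s ^ 2 * ip y θ * ((√(1 - (s * ip y θ) ^ 2))⁻¹) ^ 3) +
        1 / 2 * ((zf 1 t - zf 1 s) * (ip y θ * L (ip y θ))))) • (θ : E 2))) (by
    ext v
    simp only [Pi.add_apply, Function.comp_apply, _root_.smul_apply, _root_.add_apply,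
      innerSL_apply_apply, smul_eq_mul, inner_add_left, real_inner_smul_left]
    ring)
  have d2' := d2.congr_fderiv (g' := innerSL ℝ ((t * (√(1 - (t * ip y θ) ^ 2))⁻¹) •
      (θ : E 2))) (by
    ext v
    simp only [_root_.smul_apply, innerSL_apply_apply, smul_eq_mul, real_inner_smul_left, one_div]
    ring)
  have d3 := (d1'.smul_const (tp θ)).add (d2'.smul_const (θ : E 2))
  have e1 : Wm s t K θ = ((fun y => ((fun y : E 2 => y 0 * (θ : E 2) 1 + y 1 * -((θ : E 2) 0)) *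
      ((fun x => s * ((fun x => (√(1 - (s * x) ^ 2))⁻¹) ∘ fun y : E 2 => ip y θ) x) +
        fun x => 1 / 2 * ((zf 1 t - zf 1 s) * (K ∘ fun y : E 2 => ip y θ) x))) y • tp θ) +
      fun y => (Real.arcsin ∘ fun y => t * ip y θ) y • (θ : E 2)) := by
    funext y
    simp only [Pi.add_apply, Pi.mul_apply, Function.comp_apply]
    unfold Wm
    congr 1
    have hU : Uf θ (s • y) = (√(1 - (s * ip y θ) ^ 2))⁻¹ • orth θ (s • y) := by
      unfold Uf orth
      have : ip (s • y) θ = s * ip y θ := by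
        unfold ip
        rw [real_inner_smul_left]
      rw [this]
    have ho : orth θ (s • y) = s • orth θ y := by
      unfold orth ip
      rw [real_inner_smul_left, smul_sub, smul_smul]
    rw [hU, ho, orth_eq, smul_smul, smul_smul, smul_smul, ← add_smul]
    congr 1
    ring
  rw [e1, d3.fderiv]
  rw [det_two, cr_tp, mul_one]
  have h1 : cr (tp θ) (θ : E 2) = 1 := cr_tp θ
  unfold dens
  unfold cr at h1 ⊢
  simp only [PiLp.add_apply, PiLp.smul_apply, smul_eq_mul]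
  linear_combination ((s * (√(1 - (s * ip y θ) ^ 2))⁻¹ +
    1 / 2 * ((zf 1 t - zf 1 s) * K (ip y θ))) * (t * (√(1 - (t * ip y θ) ^ 2))⁻¹)) * h1

theorem dens_meas {s b t : ℝ} {K L : ℝ → ℝ} (hA : Adm s b K L) : Measurable (dens s t K) := by
  have := hA.meas
  unfold dens
  fun_prop

theorem dens_cont {s b t : ℝ} {K L : ℝ → ℝ} (hA : Adm s b K L) (ht0 : 0 < t) (ht1 : t < 1) :
    ContinuousOn (dens s t K) (Icc (-1) 1) := by
  have h1 : ∀ {r : ℝ}, 0 < r → r < 1 → ContinuousOn (fun u => (√(1 - (r * u) ^ 2))⁻¹)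
      (Icc (-1) 1) := fun h0 h1 =>
    ContinuousOn.inv₀ (by fun_prop) fun w hw => (Real.sqrt_pos.2 (one_sub_pos h0 h1 hw)).ne'
  unfold dens
  exact ((continuousOn_const.mul (h1 hA.s0 hA.s1)).add (continuousOn_const.mul
    (continuousOn_const.mul hA.contK))).mul (continuousOn_const.mul (h1 ht0 ht1))

/-- the integral over the line is an interval integral -/
theorem line' (F : ℝ → ℝ) : ∫ w : ℝ, √(1 - w ^ 2) ^ 1 * F w =
    ∫ w in (-1 : ℝ)..1, √(1 - w ^ 2) * F w := by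
  simp only [pow_one]
  rw [intervalIntegral.integral_of_le (by norm_num), setIntegral_eq_integral_of_forall_compl_eq_zero]
  intro w hw
  have h2 : 1 - w ^ 2 ≤ 0 := by
    by_contra h3
    push Not at h3
    apply hw
    have h4 : w ^ 2 < 1 := by linarith
    have h5 := abs_lt.1 ((sq_lt_one_iff_abs_lt_one _).1 h4)
    exact ⟨h5.1, h5.2.le⟩
  rw [Real.sqrt_eq_zero_of_nonpos h2, zero_mul]

theorem vol1 : (volume : Measure (E 1)).real (ball 0 1) = 2 := by
  unfold Measure.real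
  rw [InnerProductSpace.volume_ball_of_dim_odd (k := 0) (by simp)]
  simp

theorem vol2 : (volume : Measure (E 2)).real (ball 0 1) = Real.pi := by
  unfold Measure.real
  rw [InnerProductSpace.volume_ball_of_dim_even (k := 1) (by simp)]
  simp [Real.pi_pos.le]

theorem int_W {s b t : ℝ} {K L : ℝ → ℝ} (hA : Adm s b K L) (ht0 : 0 < t) (ht1 : t < 1) :
    ∫ θ, (∫ y in ball (0 : E 2) 1, (fderiv ℝ (Wm s t K θ) y).det) ∂(sg 2) =
      2 * ∫ w in (-1 : ℝ)..1, √(1 - w ^ 2) * dens s t K w := by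
  have := prob
  have e1 : ∀ θ : Sph 2, ∫ y in ball (0 : E 2) 1, (fderiv ℝ (Wm s t K θ) y).det =
      2 * ∫ w in (-1 : ℝ)..1, √(1 - w ^ 2) * dens s t K w := by
    intro θ
    have e2 : ∫ y in ball (0 : E 2) 1, (fderiv ℝ (Wm s t K θ) y).det =
        ∫ y in ball (0 : E 2) 1, dens s t K (ip y θ) :=
      setIntegral_congr_fun measurableSet_ball fun y hy => det_W hA ht0 ht1 θ hy
    rw [e2]
    obtain ⟨C, hC⟩ := isCompact_Icc.exists_bound_of_continuousOn (dens_cont hA ht0 ht1)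
    rw [Pool.Agent.N622.FBJJ.rotb (d := 1) (dens s t K) θ,
      Pool.Agent.N622.FBJJ.slice (d := 1) le_rfl (dens s t K) (dens_meas hA) hC, vol1, line']
  simp only [e1]
  rw [integral_const]
  simp

theorem int_sm (c : ℝ) : ∫ y in ball (0 : E 2) 1, (fderiv ℝ (fun y : E 2 => c • y) y).det =
    Real.pi * c ^ 2 := by
  have e1 : ∀ y : E 2, (fderiv ℝ (fun y : E 2 => c • y) y).det = c ^ 2 := by
    intro y
    have h1 : HasFDerivAt (fun y : E 2 => c • y) (c • ContinuousLinearMap.id ℝ (E 2)) y :=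
      (c • ContinuousLinearMap.id ℝ (E 2)).hasFDerivAt
    rw [h1.fderiv, det_mat, Matrix.det_fin_two]
    unfold mat
    simp
    ring
  simp only [e1]
  rw [setIntegral_const, vol2, smul_eq_mul]

theorem sig2 : (sig 2).real univ = 2 * Real.pi := by
  unfold Measure.real sig
  rw [Measure.toSphere_apply_univ]
  rw [InnerProductSpace.volume_ball_of_dim_even (k := 1) (by simp)]
  simp [Real.pi_pos.le]

theorem int_H {s : ℝ} (h0 : 0 < s) (h1 : s < 1) :
    ∫ y in ball (0 : E 2) 1, (fderiv ℝ (fun y : E 2 => Hf (s • y)) y).det =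
      2 * Real.pi * (1 - √(1 - s ^ 2)) := by
  have hnorm : ∀ y ∈ ball (0 : E 2) 1, ‖s • y‖ < s := by
    intro y hy
    rw [mem_ball_zero_iff] at hy
    rw [norm_smul, Real.norm_of_nonneg h0.le]
    nlinarith
  have e2 : ∫ y in ball (0 : E 2) 1, (fderiv ℝ (fun y : E 2 => Hf (s • y)) y).det =
      ∫ y in ball (0 : E 2) 1, s ^ 2 * (√(1 - ‖s • y‖ ^ 2))⁻¹ := by
    refine setIntegral_congr_fun measurableSet_ball fun y hy => ?_
    exact CAPV.det_hf (d := 1) Fin.uder le_rfl ((hnorm y hy).trans h1)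
  have e4 : ∫ y in ball (0 : E 2) 1, s ^ 2 * (√(1 - ‖s • y‖ ^ 2))⁻¹ = capv 1 s := by
    rw [integral_const_mul]
    have h := Measure.setIntegral_comp_smul_of_pos volume
      (fun y : E 2 => (√(1 - ‖y‖ ^ 2))⁻¹) (ball (0 : E 2) 1) h0
    rw [smul_unitBall_of_pos h0, finrank_euclideanSpace_fin, smul_eq_mul] at h
    rw [h]
    unfold capv
    rw [← mul_assoc, mul_inv_cancel₀ (pow_ne_zero _ h0.ne'), one_mul]
  rw [e2, e4]
  have h2 := Fin.caps 1 le_rfl (Real.arcsin s) (Real.arcsin_pos.2 h0)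
    (Real.arcsin_lt_pi_div_two.2 h1)
  rw [Real.sin_arcsin (by linarith) h1.le] at h2
  rw [h2]
  have h3 : (sig (1 + 1)).real univ = 2 * Real.pi := sig2
  rw [h3]
  simp only [pow_one]
  rw [integral_sin, Real.cos_zero, Real.cos_arcsin]

theorem Val_eq {s b t : ℝ} {K L : ℝ → ℝ} (hA : Adm s b K L) (ht0 : 0 < t) (ht1 : t < 1) :
    Val s b t K = 2 * (2 * ∫ w in (-1 : ℝ)..1, √(1 - w ^ 2) * dens s t K w) -
      2 * Real.pi * (1 - √(1 - s ^ 2)) + b * (Real.pi * zf 1 t ^ 2 - Real.pi * zf 1 s ^ 2) := by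
  unfold Val
  rw [int_W hA ht0 ht1, int_H hA.s0 hA.s1, int_sm, int_sm]

/-- the radius of the image of the boundary -/
theorem zf_one : zf 1 1 = 2 / Real.pi := by
  unfold zf
  have h := Pool.Agent.N615.FB.coordf 1 le_rfl (fun u => Real.arcsin (1 * u) * u) (by fun_prop)
  refine h.trans ?_
  have hJ : MOM.J 1 0 = Real.pi := by
    unfold MOM.J
    simp
  rw [hJ]
  congr 1
  have e1 : ∫ t in (0 : ℝ)..Real.pi, Real.arcsin (1 * Real.cos t) * Real.cos t *
      Real.sin t ^ (1 - 1) = ∫ t in (0 : ℝ)..Real.pi, (Real.pi / 2 - t) * Real.cos t := by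
    refine intervalIntegral.integral_congr fun t ht => ?_
    rw [uIcc_of_le Real.pi_pos.le] at ht
    have h1 : Real.arcsin (Real.cos t) = Real.pi / 2 - t := by
      rw [← Real.sin_pi_div_two_sub]
      exact Real.arcsin_sin (by linarith [ht.2]) (by linarith [ht.1])
    simp only [one_mul, h1]
    simp
  refine e1.trans ?_
  have hd : ∀ t ∈ uIcc (0 : ℝ) Real.pi, HasDerivAt
      (fun t => (Real.pi / 2 - t) * Real.sin t - Real.cos t)
      ((Real.pi / 2 - t) * Real.cos t) t := by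
    intro t _
    have h1 := (((hasDerivAt_id t).const_sub (Real.pi / 2)).mul (Real.hasDerivAt_sin t)).sub
      (Real.hasDerivAt_cos t)
    refine h1.congr_deriv ?_
    simp
  rw [intervalIntegral.integral_eq_sub_of_hasDerivAt hd
    (Continuous.intervalIntegrable (by fun_prop) _ _)]
  simp
  norm_num

end Pool.Agent.H72.FA
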