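import Pool.Agent.H72.FA.Out

/-!
# Calculus in the plane (helper72)
-/

set_option autoImplicit false

open MeasureTheory Metric Set Filter Topology InnerProductGeometry Matrix

namespace Pool.Agent.H72.FA

open Pool.Agent.H241R3.FV Pool.Agent.N526.CP Pool.Agent.N979.CP

/-- the coefficient of the outer form at the level `ρ` -/
noncomputable def Hr (s b : ℝ) (K L : ℝ → ℝ) (ρ x : ℝ) : ℝ :=
  2 * s * (1 - s ^ 2) / ρ * ((√(1 - (s * x) ^ 2))⁻¹) ^ 3 +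
    (ρ - zf 1 s) / ρ * (K x - (1 - x ^ 2) * L x) + b

/-- the determinant of a linear map of rank at most two -/
theorem det_two (a b u v : E 2) :
    ((innerSL ℝ a).smulRight u + (innerSL ℝ b).smulRight v).det = cr a b * cr u v := by
  rw [det_mat, Matrix.det_fin_two]
  unfold mat cr
  simp only [_root_.add_apply, ContinuousLinearMap.smulRight_apply, innerSL_apply_apply,
    PiLp.add_apply, PiLp.smul_apply, smul_eq_mul, inner2]
  simp
  ring

theorem det_one (a u : E 2) : ((innerSL ℝ a).smulRight u).det = 0 := by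
  have h := det_two a 0 u 0
  rw [map_zero] at h
  have h2 : ((0 : E 2 →L[ℝ] ℝ).smulRight (0 : E 2)) = 0 := by
    ext v
    simp
  rw [h2, add_zero] at h
  rw [h]
  unfold cr
  simp

theorem hasDerivAt_q {s x : ℝ} (h : 0 < 1 - (s * x) ^ 2) :
    HasDerivAt (fun x => (√(1 - (s * x) ^ 2))⁻¹)
      (s ^ 2 * x * ((√(1 - (s * x) ^ 2))⁻¹) ^ 3) x := by
  have hq : 0 < √(1 - (s * x) ^ 2) := Real.sqrt_pos.2 h
  have h1 : HasDerivAt (fun x => 1 - (s * x) ^ 2) (-(2 * s ^ 2 * x)) x := by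
    have h2 : HasDerivAt (fun x : ℝ => (s * x) ^ 2) (2 * (s * x) * s) x := by
      have h3 := ((hasDerivAt_id x).const_mul s).pow 2
      simp only [id_eq] at h3
      refine h3.congr_deriv ?_
      norm_num
    refine (h2.const_sub 1).congr_deriv ?_
    ring
  have h2 := (h1.sqrt h.ne').inv hq.ne'
  refine h2.congr_deriv ?_
  field_simp

/-- the derivatives of the polar functions of a curve `Y` in the plane -/
theorem polar {Y : E 2 → E 2} {p : E 2} {R0 R1 : E 2} (hn : Y p ≠ 0)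
    (h0 : HasFDerivAt (fun y => Y y 0) (innerSL ℝ R0) p)
    (h1 : HasFDerivAt (fun y => Y y 1) (innerSL ℝ R1) p) :
    HasFDerivAt (fun y => ‖Y y‖)
      (innerSL ℝ (‖Y p‖⁻¹ • (Y p 0 • R0 + Y p 1 • R1))) p := by
  have hpos : 0 < ‖Y p‖ := norm_pos_iff.2 hn
  have hsq : 0 < Y p 0 ^ 2 + Y p 1 ^ 2 := by
    rw [← norm2]
    positivity
  have e : (fun y => ‖Y y‖) = fun y => √(Y y 0 ^ 2 + Y y 1 ^ 2) := by
    funext y
    rw [← norm2, Real.sqrt_sq (norm_nonneg _)]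
  have h2 := (h0.pow 2).add (h1.pow 2)
  have h3 := h2.sqrt hsq.ne'
  rw [e]
  refine h3.congr_fderiv ?_
  have e2 : √(Y p 0 ^ 2 + Y p 1 ^ 2) = ‖Y p‖ := by
    rw [← norm2, Real.sqrt_sq (norm_nonneg _)]
  ext v
  simp only [Pi.add_apply]
  rw [e2]
  simp only [_root_.smul_apply, _root_.add_apply, innerSL_apply_apply, smul_eq_mul, inner2,
    PiLp.add_apply, PiLp.smul_apply]
  field_simp
  norm_num
  ring

/-- the derivative of a direction cosine -/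
theorem dirder {Y : E 2 → E 2} {p : E 2} {R0 R1 : E 2} (hn : Y p ≠ 0)
    (h0 : HasFDerivAt (fun y => Y y 0) (innerSL ℝ R0) p)
    (h1 : HasFDerivAt (fun y => Y y 1) (innerSL ℝ R1) p) (a b : ℝ) {e A2 : E 2}
    (he : e = ‖Y p‖⁻¹ • Y p) (hA : A2 = (pe e 0) • R0 + (pe e 1) • R1) :
    HasFDerivAt (fun y => (Y y 0 * a + Y y 1 * b) * ‖Y y‖⁻¹)
      (innerSL ℝ (((pe e 0 * a + pe e 1 * b) * ‖Y p‖⁻¹) • A2)) p := by
  have hpos : 0 < ‖Y p‖ := norm_pos_iff.2 hn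
  have h2 := polar hn h0 h1
  have h3 := ((h0.mul_const a).add (h1.mul_const b)).mul
    ((hasDerivAt_inv hpos.ne').comp_hasFDerivAt p h2)
  refine h3.congr_fderiv ?_
  have hN : ‖Y p‖ ^ 2 = Y p 0 ^ 2 + Y p 1 ^ 2 := norm2 _
  rw [hA, he]
  ext v
  simp only [Pi.add_apply, Function.comp_apply, _root_.smul_apply, _root_.add_apply,
    innerSL_apply_apply, smul_eq_mul, inner2, PiLp.add_apply, PiLp.smul_apply, pe_zero, pe_one]
  field_simp
  rw [hN]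
  ring

/-- the derivative of the scalar function of the form in the outer region -/
theorem phider {Y : E 2 → E 2} {p : E 2} {R0 R1 : E 2} (hn : Y p ≠ 0)
    (h0 : HasFDerivAt (fun y => Y y 0) (innerSL ℝ R0) p)
    (h1 : HasFDerivAt (fun y => Y y 1) (innerSL ℝ R1) p) {s b : ℝ} (hs0 : 0 < s) (hs1 : s < 1)
    {K L : ℝ → ℝ} (hK : ∀ x ∈ Icc (-1 : ℝ) 1, HasDerivAt K (x * L x) x) (θ : Sph 2) {e A1 A2 : E 2}
    (he : e = ‖Y p‖⁻¹ • Y p) (hA1 : A1 = (e 0) • R0 + (e 1) • R1)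
    (hA2 : A2 = (pe e 0) • R0 + (pe e 1) • R1) {c z : E 2 → ℝ}
    (hc : c = fun y => (Y y 0 * (θ : E 2) 0 + Y y 1 * (θ : E 2) 1) * ‖Y y‖⁻¹)
    (hz : z = fun y => (Y y 0 * (θ : E 2) 1 + Y y 1 * -((θ : E 2) 0)) * ‖Y y‖⁻¹) :
    HasFDerivAt (fun y => s * (z y * (√(1 - (s * c y) ^ 2))⁻¹) +
        1 / 2 * ((‖Y y‖ - zf 1 s) * (z y * K (c y))))
      (innerSL ℝ ((1 / 2 * (ip (pe e) θ * K (ip e θ))) • A1 -
        (1 / 2 * (ip e θ * (Hr s b K L ‖Y p‖ (ip e θ) - b))) • A2)) p := by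
  have hpos : 0 < ‖Y p‖ := norm_pos_iff.2 hn
  have hen : ‖e‖ = 1 := by
    rw [he, norm_smul, norm_inv, norm_norm, inv_mul_cancel₀ hpos.ne']
  have hcp : c p = ip e θ := by
    rw [hc, he]
    unfold ip
    rw [inner2]
    simp only [PiLp.smul_apply, smul_eq_mul]
    ring
  have hzp : z p = ip (pe e) θ := by
    rw [hz, he]
    unfold ip
    rw [inner2, pe_zero, pe_one]
    simp only [PiLp.smul_apply, smul_eq_mul]
    ring
  have dc := dirder hn h0 h1 ((θ : E 2) 0) ((θ : E 2) 1) he hA2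
  have dz := dirder hn h0 h1 ((θ : E 2) 1) (-((θ : E 2) 0)) he hA2
  rw [← hc] at dc
  rw [← hz] at dz
  have ec : pe e 0 * (θ : E 2) 0 + pe e 1 * (θ : E 2) 1 = ip (pe e) θ := by
    unfold ip
    rw [inner2]
  have ez : pe e 0 * (θ : E 2) 1 + pe e 1 * -((θ : E 2) 0) = -(ip e θ) := by
    unfold ip
    rw [inner2, pe_zero, pe_one]
    ring
  rw [ec] at dc
  rw [ez] at dz
  have dn := polar hn h0 h1
  have hm := ip_mem hen θ
  have hq : 0 < 1 - (s * ip e θ) ^ 2 := by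
    have h2 : ip e θ ^ 2 ≤ 1 := by
      have := hm.1
      have := hm.2
      nlinarith
    have h3 : s ^ 2 * ip e θ ^ 2 ≤ s ^ 2 * 1 := mul_le_mul_of_nonneg_left h2 (sq_nonneg s)
    rw [mul_pow]
    nlinarith
  have dq := (hasDerivAt_q hq)
  rw [← hcp] at dq
  have dq2 := dq.comp_hasFDerivAt p dc
  have dK := hK _ hm
  rw [← hcp] at dK
  have dK2 := dK.comp_hasFDerivAt p dc
  have d1 := (dz.mul dq2).const_mul s
  have d2 := ((dn.sub_const (zf 1 s)).mul (dz.mul dK2)).const_mul (1 / 2)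
  refine (d1.add d2).congr_fderiv ?_
  have hcz : ip (pe e) θ ^ 2 = 1 - ip e θ ^ 2 := by
    unfold ip
    rw [inner2, inner2, pe_zero, pe_one]
    have n1 := norm2 e
    have n2 := norm2 (θ : E 2)
    rw [hen] at n1
    rw [norm_sph] at n2
    linear_combination (-1 : ℝ) * n2 * ((e 0) ^ 2 + (e 1) ^ 2) - n1
  obtain ⟨q, hqd⟩ : ∃ q, q = √(1 - (s * ip e θ) ^ 2) := ⟨_, rfl⟩
  have hq0 : 0 < q := by rw [hqd]; exact Real.sqrt_pos.2 hq
  have hq2 : q ^ 2 = 1 - (s * ip e θ) ^ 2 := by rw [hqd]; exact Real.sq_sqrt hq.le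
  have hA1' : ‖Y p‖⁻¹ • (Y p 0 • R0 + Y p 1 • R1) = A1 := by
    rw [hA1, he]
    simp only [PiLp.smul_apply, smul_eq_mul, smul_add, smul_smul]
  rw [hA1']
  ext v
  simp only [Pi.mul_apply, Function.comp_apply, _root_.smul_apply, _root_.add_apply,
    innerSL_apply_apply, smul_eq_mul, inner_smul_left, inner_sub_left, conj_trivial, hcp, hzp]
  rw [← hqd]
  unfold Hr
  rw [← hqd]
  have hs2 : s ^ 2 = 1 - (1 - s ^ 2) := by ring
  generalize inner ℝ A2 v = w2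
  generalize inner ℝ A1 v = w1
  have key : s * (-(ip e θ) * q⁻¹ + ip (pe e) θ ^ 2 * (s ^ 2 * ip e θ * q⁻¹ ^ 3)) =
      -(ip e θ) * (s * (1 - s ^ 2) * q⁻¹ ^ 3) := by
    rw [hcz]
    have h5 : q⁻¹ = q ^ 2 * q⁻¹ ^ 3 := by field_simp
    rw [show s * (-(ip e θ) * q⁻¹ + (1 - ip e θ ^ 2) * (s ^ 2 * ip e θ * q⁻¹ ^ 3)) =
      -(s * ip e θ) * q⁻¹ + s * ((1 - ip e θ ^ 2) * (s ^ 2 * ip e θ * q⁻¹ ^ 3)) by ring]
    nth_rewrite 1 [h5]
    rw [hq2]
    ring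
  linear_combination (‖Y p‖⁻¹ * w2) * key + (1 / 2 * (‖Y p‖ - zf 1 s) * ‖Y p‖⁻¹ * w2 *
    (ip e θ * L (ip e θ))) * hcz

end Pool.Agent.H72.FA
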