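import Pool.Agent.H72.FA.OutG

/-!
# Level sets (helper72)
-/

set_option autoImplicit false

open MeasureTheory Metric Set Filter Topology InnerProductGeometry Matrix

namespace Pool.Agent.H72.FA

open Pool.Agent.H241R3.FV Pool.Agent.N526.CP Pool.Agent.N979.CP

theorem map_cont {M : Type} [MetricSpace M] (C : RChart 2 M) : ContinuousOn C.map C.U := by
  intro p hp
  obtain ⟨r, hr, -, h⟩ := Pool.Agent.H241R3.FV.TLoc.taskLoc 2 M C p hp 1 one_pos
  have h1 : ContinuousAt C.map p := by
    rw [Metric.continuousAt_iff']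
    intro ε hε
    obtain ⟨K, hK⟩ : ∃ K, K = √(∑ i, ∑ j, |C.G p i j|) + 1 := ⟨_, rfl⟩
    have hK0 : 0 < K := by rw [hK]; positivity
    filter_upwards [ball_mem_nhds p (lt_min hr (div_pos hε hK0))] with y hy
    have hy1 : y ∈ ball p r := ball_subset_ball (min_le_left _ _) hy
    have hy2 : dist y p < ε / K := lt_of_lt_of_le hy (min_le_right _ _)
    have h2 := h y hy1 p (mem_ball_self hr)
    have h3 := gnorm_le (C.G p) (y - p)
    rw [dist_eq_norm] at hy2
    have h4 : dist (C.map y) (C.map p) ≤ K * ‖y - p‖ := by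
      rw [hK]
      linarith
    refine h4.trans_lt ?_
    rwa [lt_div_iff₀ hK0, mul_comm] at hy2
  exact h1.continuousWithinAt

/-- almost everywhere on a level set the derivative vanishes -/
theorem level (U : Set (E 2)) (hU : IsOpen U) (f : E 2 → ℝ) (hf : ContinuousOn f U) (r : ℝ) :
    ∀ᵐ p ∂(volume : Measure (E 2)), p ∈ U → f p = r → ∀ T : E 2 →L[ℝ] ℝ, HasFDerivAt f T p →
      T = 0 := by
  obtain ⟨s, hs⟩ : ∃ s : Set (E 2), s = (U ∩ f ⁻¹' {r}) ∩ {p | DifferentiableAt ℝ f p} := ⟨_, rfl⟩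
  have hm1 : MeasurableSet (U ∩ f ⁻¹' {r}) := by
    obtain ⟨u, hu, h⟩ := (continuousOn_iff_isClosed.1 hf) {r} isClosed_singleton
    rw [inter_comm, h]
    exact hu.measurableSet.inter hU.measurableSet
  have hm : MeasurableSet s := by
    rw [hs]
    exact hm1.inter (measurableSet_of_differentiableAt ℝ f)
  obtain ⟨e0, he0⟩ : ∃ e0 : E 2, e0 = EuclideanSpace.single 0 1 := ⟨_, rfl⟩
  have hen : ‖e0‖ = 1 := by rw [he0]; simp
  have happ : ApproximatesLinearOn (fun y => f y • e0) (0 : E 2 →L[ℝ] E 2) s 0 := by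
    rw [ApproximatesLinearOn]
    intro x hx y hy
    rw [hs] at hx hy
    have h1 : f x = r := hx.1.2
    have h2 : f y = r := hy.1.2
    simp [h1, h2]
  have h := happ.norm_fderiv_sub_le volume hm (fun p => (fderiv ℝ f p).smulRight e0) (by
    intro x hx
    rw [hs] at hx
    exact ((hx.2.hasFDerivAt).smul_const e0).hasFDerivWithinAt)
  rw [ae_restrict_iff' hm] at h
  filter_upwards [h] with p hp hpU hpr T hT
  have h1 := hp (by rw [hs]; exact ⟨⟨hpU, hpr⟩, hT.differentiableAt⟩)
  rw [hT.fderiv, sub_zero] at h1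
  have h2 : T.smulRight e0 = 0 := by
    have : ‖T.smulRight e0‖₊ = 0 := le_antisymm h1 zero_le
    exact nnnorm_eq_zero.1 this
  ext v
  have h3 := congrArg (fun A : E 2 →L[ℝ] E 2 => A v) h2
  simp only [ContinuousLinearMap.smulRight_apply, _root_.zero_apply] at h3
  rcases smul_eq_zero.1 h3 with h4 | h4
  · exact h4
  · rw [h4, norm_zero] at hen
    exact absurd hen zero_ne_one

end Pool.Agent.H72.FA
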