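import Pool.Agent.H72.FA.Bd

/-!
# The limit and the general lower bound (helper72)
-/

set_option autoImplicit false

open MeasureTheory Metric Set Filter Topology InnerProductGeometry Matrix Asymptotics

namespace Pool.Agent.H72.FA

open Pool.Agent.H241R3.FV Pool.Agent.N526.CP Pool.Agent.N979.CP

/-- the lower bound -/
noncomputable def Low (s b : ℝ) (K : ℝ → ℝ) : ℝ :=
  8 * Real.arcsin s - 2 * Real.pi * (1 - √(1 - s ^ 2)) +
    (2 / Real.pi - zf 1 s) * (2 * ∫ u in (-1 : ℝ)..1, K u) +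
    b * (Real.pi * (2 / Real.pi) ^ 2 - Real.pi * zf 1 s ^ 2)

theorem zf_tendsto : Tendsto (fun t => zf 1 t) (𝓝[<] 1) (𝓝 (2 / Real.pi)) := by
  have h1 := (Fin.rad 1 le_rfl).2.2.1 1 ⟨zero_le_one, le_rfl⟩
  rw [← zf_one]
  refine Tendsto.mono_left h1 ?_
  have h2 : Ioo (0 : ℝ) 1 ∈ 𝓝[<] (1 : ℝ) := Ioo_mem_nhdsLT zero_lt_one
  rw [nhdsWithin_le_iff]
  filter_upwards [h2] with t ht
  exact ⟨ht.1.le, ht.2.le⟩

theorem zf_le {t : ℝ} (h0 : 0 < t) (h1 : t < 1) : zf 1 t ≤ 2 / Real.pi := by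
  rw [← zf_one]
  exact ((Fin.rad 1 le_rfl).2.1 ⟨h0.le, h1.le⟩ ⟨zero_le_one, le_rfl⟩ h1).le

theorem ratio_le {t w : ℝ} (h0 : 0 < t) (h1 : t < 1) (hw : w ∈ Icc (-1 : ℝ) 1) :
    |√(1 - w ^ 2) * (t * (√(1 - (t * w) ^ 2))⁻¹)| ≤ 1 := by
  have hq := one_sub_pos h0 h1 hw
  have hs := Real.sqrt_pos.2 hq
  have h2 : √(1 - w ^ 2) ≤ √(1 - (t * w) ^ 2) := by
    refine Real.sqrt_le_sqrt ?_
    rw [mul_pow]
    have : t ^ 2 * w ^ 2 ≤ 1 * w ^ 2 :=
      mul_le_mul_of_nonneg_right (by nlinarith) (sq_nonneg w)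
    linarith
  rw [abs_of_nonneg (by positivity)]
  calc √(1 - w ^ 2) * (t * (√(1 - (t * w) ^ 2))⁻¹) ≤
        √(1 - (t * w) ^ 2) * (1 * (√(1 - (t * w) ^ 2))⁻¹) := by gcongr
    _ = 1 := by rw [one_mul, mul_inv_cancel₀ hs.ne']

theorem int_tendsto {s b : ℝ} {K L : ℝ → ℝ} (hA : Adm s b K L) :
    Tendsto (fun t => ∫ w in (-1 : ℝ)..1, √(1 - w ^ 2) * dens s t K w) (𝓝[<] 1)
      (𝓝 (∫ w in (-1 : ℝ)..1, (s * (√(1 - (s * w) ^ 2))⁻¹ +
        1 / 2 * ((2 / Real.pi - zf 1 s) * K w)))) := by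
  obtain ⟨C, hC0, hC, -⟩ := hA.bd
  have hs0 := hA.s0
  have hs1 := hA.s1
  have hev : ∀ᶠ t in 𝓝[<] (1 : ℝ), t ∈ Ioo (0 : ℝ) 1 := Ioo_mem_nhdsLT zero_lt_one
  have hz : ∀ t ∈ Ioo (0 : ℝ) 1, |zf 1 t - zf 1 s| ≤ 2 := by
    intro t ht
    have h1 := zf_pos ht.1 ht.2.le
    have h2 := zf_le ht.1 ht.2
    have h3 := zf_pos hs0 hs1.le
    have h4 := zf_le hs0 hs1
    have h5 : 2 / Real.pi ≤ 1 := by
      rw [div_le_one Real.pi_pos]
      linarith [Real.pi_gt_three]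
    rw [abs_le]
    constructor <;> linarith
  refine intervalIntegral.tendsto_integral_filter_of_dominated_convergence
    (fun _ => s * (√(1 - s ^ 2))⁻¹ + C) ?_ ?_ ?_ ?_
  · filter_upwards with t
    have := dens_meas (t := t) hA
    exact (by fun_prop : Measurable fun w => √(1 - w ^ 2) * dens s t K w).aestronglyMeasurable
  · filter_upwards [hev] with t ht
    refine Eventually.of_forall fun w hw => ?_
    rw [uIoc_of_le (by norm_num)] at hw
    have hwI : w ∈ Icc (-1 : ℝ) 1 := ⟨hw.1.le, hw.2⟩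
    have e1 : √(1 - w ^ 2) * dens s t K w = (√(1 - w ^ 2) * (t * (√(1 - (t * w) ^ 2))⁻¹)) *
        (s * (√(1 - (s * w) ^ 2))⁻¹ + 1 / 2 * ((zf 1 t - zf 1 s) * K w)) := by
      unfold dens
      ring
    rw [e1, Real.norm_eq_abs, abs_mul]
    have e2 := ratio_le ht.1 ht.2 hwI
    have e3 : |s * (√(1 - (s * w) ^ 2))⁻¹ + 1 / 2 * ((zf 1 t - zf 1 s) * K w)| ≤
        s * (√(1 - s ^ 2))⁻¹ + C := by
      refine (abs_add_le _ _).trans ?_
      have e4 : |s * (√(1 - (s * w) ^ 2))⁻¹| ≤ s * (√(1 - s ^ 2))⁻¹ := by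
        rw [abs_of_nonneg (by positivity)]
        have h5 : 0 < 1 - s ^ 2 := by nlinarith
        have h6 : w ^ 2 ≤ 1 := by nlinarith [hwI.1, hwI.2]
        have h7 := Real.sqrt_pos.2 h5
        have h8 : s ^ 2 * w ^ 2 ≤ s ^ 2 * 1 := mul_le_mul_of_nonneg_left h6 (sq_nonneg s)
        refine mul_le_mul_of_nonneg_left (inv_anti₀ h7 (Real.sqrt_le_sqrt ?_)) hs0.le
        rw [mul_pow]
        linarith
      have e5 : |1 / 2 * ((zf 1 t - zf 1 s) * K w)| ≤ C := by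
        rw [abs_mul, abs_mul, abs_of_pos (by norm_num : (0 : ℝ) < 1 / 2)]
        have := mul_le_mul (hz t ht) (hC w hwI) (abs_nonneg _) (by norm_num)
        linarith
      linarith
    calc |√(1 - w ^ 2) * (t * (√(1 - (t * w) ^ 2))⁻¹)| *
          |s * (√(1 - (s * w) ^ 2))⁻¹ + 1 / 2 * ((zf 1 t - zf 1 s) * K w)| ≤
          1 * (s * (√(1 - s ^ 2))⁻¹ + C) :=
          mul_le_mul e2 e3 (abs_nonneg _) zero_le_one
      _ = _ := one_mul _
  · exact intervalIntegrable_const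
  · have h1 : ∀ᵐ w : ℝ ∂volume, w ≠ 1 := by
      have : volume ({1} : Set ℝ) = 0 := Real.volume_singleton
      exact compl_mem_ae_iff.2 this
    filter_upwards [h1] with w hw1 hw
    rw [uIoc_of_le (by norm_num)] at hw
    have hlt : w < 1 := lt_of_le_of_ne hw.2 hw1
    have hgt : -1 < w := hw.1
    have hpos : 0 < 1 - w ^ 2 := by nlinarith
    have hsq := Real.sqrt_pos.2 hpos
    have t1 : Tendsto (fun t : ℝ => t * (√(1 - (t * w) ^ 2))⁻¹) (𝓝[<] 1)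
        (𝓝 (1 * (√(1 - (1 * w) ^ 2))⁻¹)) := by
      have hc : ContinuousAt (fun t : ℝ => t * (√(1 - (t * w) ^ 2))⁻¹) 1 := by
        refine ContinuousAt.mul continuousAt_id (ContinuousAt.inv₀ (by fun_prop) ?_)
        rw [one_mul]
        exact hsq.ne'
      exact hc.tendsto.mono_left nhdsWithin_le_nhds
    have t2 := ((zf_tendsto.sub_const (zf 1 s)).mul_const (K w)).const_mul (1 / 2)
    have t3 := (((t2.const_add (s * (√(1 - (s * w) ^ 2))⁻¹)).mul t1).const_mul (√(1 - w ^ 2)))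
    have e : √(1 - w ^ 2) * ((s * (√(1 - (s * w) ^ 2))⁻¹ +
        1 / 2 * ((2 / Real.pi - zf 1 s) * K w)) * (1 * (√(1 - (1 * w) ^ 2))⁻¹)) =
        s * (√(1 - (s * w) ^ 2))⁻¹ + 1 / 2 * ((2 / Real.pi - zf 1 s) * K w) := by
      rw [one_mul, one_mul]
      field_simp
    rw [e] at t3
    exact t3

theorem int_asin {s : ℝ} (h0 : 0 < s) (h1 : s < 1) :
    ∫ w in (-1 : ℝ)..1, s * (√(1 - (s * w) ^ 2))⁻¹ = 2 * Real.arcsin s := by
  have hd : ∀ w ∈ uIcc (-1 : ℝ) 1, HasDerivAt (fun w => Real.arcsin (s * w))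
      (s * (√(1 - (s * w) ^ 2))⁻¹) w := by
    intro w hw
    rw [uIcc_of_le (by norm_num)] at hw
    have hq := one_sub_pos h0 h1 hw
    have h2 := (Real.hasDerivAt_arcsin (x := s * w) (by nlinarith) (by nlinarith)).comp w
      ((hasDerivAt_id w).const_mul s)
    refine h2.congr_deriv ?_
    simp only [one_div, mul_one]
    ring
  have hc : ContinuousOn (fun w => s * (√(1 - (s * w) ^ 2))⁻¹) (uIcc (-1 : ℝ) 1) := by
    rw [uIcc_of_le (by norm_num)]
    exact continuousOn_const.mul (ContinuousOn.inv₀ (by fun_prop) fun w hw =>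
      (Real.sqrt_pos.2 (one_sub_pos h0 h1 hw)).ne')
  rw [intervalIntegral.integral_eq_sub_of_hasDerivAt hd hc.intervalIntegrable]
  rw [mul_one, mul_neg_one, Real.arcsin_neg]
  ring

theorem Val_tendsto {s b : ℝ} {K L : ℝ → ℝ} (hA : Adm s b K L) :
    Tendsto (fun t => Val s b t K) (𝓝[<] 1) (𝓝 (Low s b K)) := by
  have hev : ∀ᶠ t in 𝓝[<] (1 : ℝ), t ∈ Ioo (0 : ℝ) 1 := Ioo_mem_nhdsLT zero_lt_one
  have h1 := ((int_tendsto hA).const_mul 2).const_mul 2
  have h2 := ((zf_tendsto.pow 2).const_mul Real.pi).sub_const (Real.pi * zf 1 s ^ 2)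
  have h3 := (h1.sub_const (2 * Real.pi * (1 - √(1 - s ^ 2)))).add (h2.const_mul b)
  have e : 2 * (2 * ∫ w in (-1 : ℝ)..1, (s * (√(1 - (s * w) ^ 2))⁻¹ +
        1 / 2 * ((2 / Real.pi - zf 1 s) * K w))) - 2 * Real.pi * (1 - √(1 - s ^ 2)) +
      b * (Real.pi * (2 / Real.pi) ^ 2 - Real.pi * zf 1 s ^ 2) = Low s b K := by
    have i1 : IntervalIntegrable (fun w => s * (√(1 - (s * w) ^ 2))⁻¹) volume (-1) 1 := by
      have hc : ContinuousOn (fun w => s * (√(1 - (s * w) ^ 2))⁻¹) (uIcc (-1 : ℝ) 1) := by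
        rw [uIcc_of_le (by norm_num)]
        exact continuousOn_const.mul (ContinuousOn.inv₀ (by fun_prop) fun w hw =>
          (Real.sqrt_pos.2 (one_sub_pos hA.s0 hA.s1 hw)).ne')
      exact hc.intervalIntegrable
    have i2 : IntervalIntegrable K volume (-1) 1 := by
      have hc : ContinuousOn K (uIcc (-1 : ℝ) 1) := by
        rw [uIcc_of_le (by norm_num)]
        exact hA.contK
      exact hc.intervalIntegrable
    rw [intervalIntegral.integral_add i1 ((i2.const_mul _).const_mul _),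
      int_asin hA.s0 hA.s1, intervalIntegral.integral_const_mul,
      intervalIntegral.integral_const_mul]
    unfold Low
    ring
  rw [e] at h3
  refine h3.congr' ?_
  filter_upwards [hev] with t ht
  rw [Val_eq hA ht.1 ht.2]

/-- the general lower bound -/
theorem area_ge {M : Type} [MetricSpace M] [CompactSpace M] (S : OFill 2 M) (hS : NonShort S)
    {s b : ℝ} {K L : ℝ → ℝ} (hA : Adm s b K L) : ENNReal.ofReal (Low s b K) ≤ S.vol := by
  have h1 := (ENNReal.tendsto_ofReal (Val_tendsto hA))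
  refine le_of_tendsto h1 ?_
  have hev : ∀ᶠ t in 𝓝[<] (1 : ℝ), t ∈ Ioo s 1 := Ioo_mem_nhdsLT hA.s1
  filter_upwards [hev] with t ht
  exact main_t S hS hA ht.1 ht.2 (zf_le (hA.s0.trans ht.1) ht.2)

end Pool.Agent.H72.FA
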