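import Pool.Agent.H72.FA.Ptw

/-!
# Lipschitz properties of the maps (helper72)
-/

set_option autoImplicit false

open MeasureTheory Metric Set Filter Topology InnerProductGeometry Matrix Asymptotics

namespace Pool.Agent.H72.FA

open Pool.Agent.H241R3.FV Pool.Agent.N526.CP Pool.Agent.N979.CP
open Pool.Agent.N526.CP.LIP (asin_lip ip_le ip_sub ip_smul Uf_lip Hf_lip)

theorem eh_lip {r : ℝ} (hr : 0 < r) (Y Z : E 2) : ‖eh r Y - eh r Z‖ ≤ 2 / r * ‖Y - Z‖ := by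
  unfold eh
  obtain ⟨m, hm⟩ : ∃ m, m = max r ‖Y‖ := ⟨_, rfl⟩
  obtain ⟨n, hn⟩ : ∃ n, n = max r ‖Z‖ := ⟨_, rfl⟩
  rw [← hm, ← hn]
  have hm0 : r ≤ m := by rw [hm]; exact le_max_left _ _
  have hn0 : r ≤ n := by rw [hn]; exact le_max_left _ _
  have hZ : ‖Z‖ ≤ n := by rw [hn]; exact le_max_right _ _
  have hm1 : 0 < m := hr.trans_le hm0
  have hn1 : 0 < n := hr.trans_le hn0
  have hmn : |n - m| ≤ ‖Y - Z‖ := by
    rw [hm, hn]
    rw [max_comm r ‖Z‖, max_comm r ‖Y‖]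
    refine (abs_max_sub_max_le_abs ‖Z‖ ‖Y‖ r).trans ?_
    rw [abs_sub_comm]
    exact abs_norm_sub_norm_le Y Z
  have e : m⁻¹ • Y - n⁻¹ • Z = m⁻¹ • (Y - Z) + ((n - m) * (m⁻¹ * n⁻¹)) • Z := by
    have h1 : m⁻¹ - n⁻¹ = (n - m) * (m⁻¹ * n⁻¹) := by field_simp
    rw [← h1]
    module
  rw [e]
  refine (norm_add_le _ _).trans ?_
  rw [norm_smul, norm_smul, norm_mul, norm_mul, norm_inv, norm_inv, Real.norm_eq_abs,
    Real.norm_eq_abs, Real.norm_eq_abs, abs_of_pos hm1, abs_of_pos hn1]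
  have h2 : |n - m| * (m⁻¹ * n⁻¹) * ‖Z‖ ≤ m⁻¹ * ‖Y - Z‖ := by
    calc |n - m| * (m⁻¹ * n⁻¹) * ‖Z‖ ≤ |n - m| * (m⁻¹ * n⁻¹) * n := by gcongr
      _ = m⁻¹ * |n - m| := by field_simp
      _ ≤ m⁻¹ * ‖Y - Z‖ := by gcongr
  have h3 : m⁻¹ ≤ r⁻¹ := inv_anti₀ hr hm0
  calc m⁻¹ * ‖Y - Z‖ + |n - m| * (m⁻¹ * n⁻¹) * ‖Z‖ ≤ m⁻¹ * ‖Y - Z‖ + m⁻¹ * ‖Y - Z‖ := by
        linarith
    _ = 2 * (m⁻¹ * ‖Y - Z‖) := by ring
    _ ≤ 2 * (r⁻¹ * ‖Y - Z‖) := by gcongr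
    _ = _ := by ring

theorem pj_lip {r : ℝ} (hr : 0 < r) (Y Z : E 2) : ‖pj r Y - pj r Z‖ ≤ 2 * ‖Y - Z‖ := by
  unfold pj
  rw [← smul_sub, norm_smul, Real.norm_eq_abs, abs_of_pos hr]
  calc r * ‖eh r Y - eh r Z‖ ≤ r * (2 / r * ‖Y - Z‖) :=
        mul_le_mul_of_nonneg_left (eh_lip hr Y Z) hr.le
    _ = _ := by field_simp

theorem pj_norm {r : ℝ} (hr : 0 < r) (Y : E 2) : ‖pj r Y‖ ≤ r := by
  unfold pj
  rw [norm_smul, Real.norm_eq_abs, abs_of_pos hr]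
  exact mul_le_of_le_one_right hr.le (eh_norm hr Y)

theorem smul_sub_le (a a' : ℝ) (v v' : E 2) :
    ‖a • v - a' • v'‖ ≤ |a| * ‖v - v'‖ + |a - a'| * ‖v'‖ := by
  have e : a • v - a' • v' = a • (v - v') + (a - a') • v' := by module
  rw [e]
  refine (norm_add_le _ _).trans ?_
  rw [norm_smul, norm_smul, Real.norm_eq_abs, Real.norm_eq_abs]

theorem orth_sub (θ : Sph 2) (v w : E 2) : orth θ v - orth θ w = orth θ (v - w) := by
  unfold orth ip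
  rw [inner_sub_left]
  module

/-- bounds for the coefficient -/
theorem Adm.bd {s b : ℝ} {K L : ℝ → ℝ} (h : Adm s b K L) : ∃ C : ℝ, 0 ≤ C ∧
    (∀ x ∈ Icc (-1 : ℝ) 1, |K x| ≤ C) ∧
    ∀ x ∈ Icc (-1 : ℝ) 1, ∀ y ∈ Icc (-1 : ℝ) 1, |K x - K y| ≤ C * |x - y| := by
  obtain ⟨C1, h1⟩ := isCompact_Icc.exists_bound_of_continuousOn h.contK
  obtain ⟨C2, h2⟩ := isCompact_Icc.exists_bound_of_continuousOn
    (continuousOn_id.mul h.contL : ContinuousOn (fun x => x * L x) (Icc (-1 : ℝ) 1))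
  refine ⟨max |C1| |C2|, le_trans (abs_nonneg _) (le_max_left _ _), fun x hx => ?_,
    fun x hx y hy => ?_⟩
  · exact (h1 x hx).trans ((le_abs_self _).trans (le_max_left _ _))
  · have h3 := (convex_Icc (-1 : ℝ) 1).norm_image_sub_le_of_norm_hasDerivWithin_le
      (f := K) (f' := fun x => x * L x) (C := max |C1| |C2|)
      (fun z hz => (h.der z hz).hasDerivWithinAt)
      (fun z hz => (h2 z hz).trans ((le_abs_self _).trans (le_max_right _ _))) hy hx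
    rw [Real.norm_eq_abs, Real.norm_eq_abs] at h3
    exact h3

/-- the boundary values -/
noncomputable def Wm (s t : ℝ) (K : ℝ → ℝ) (θ : Sph 2) (y : E 2) : E 2 :=
  Uf θ (s • y) + (1 / 2 * ((zf 1 t - zf 1 s) * K (ip y θ))) • orth θ y +
    Real.arcsin (t * ip y θ) • (θ : E 2)

theorem Bt_lip {s b : ℝ} {K L : ℝ → ℝ} (hA : Adm s b K L) : ∃ C : ℝ, 0 ≤ C ∧
    ∀ θ : Sph 2, ∀ Y Z : E 2, ‖Y‖ ≤ 1 → ‖Z‖ ≤ 1 →
      ‖Bt s K θ Y - Bt s K θ Z‖ ≤ C * ‖Y - Z‖ := by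
  obtain ⟨C, hC0, hC1, hC2⟩ := hA.bd
  have hr := zf_pos hA.s0 hA.s1.le
  obtain ⟨r, hrd⟩ : ∃ r, r = zf 1 s := ⟨_, rfl⟩
  rw [← hrd] at hr
  refine ⟨3 * C + C * (2 / r) * (1 + r), by positivity, fun θ Y Z _ hZ => ?_⟩
  unfold Bt
  rw [← hrd]
  refine (smul_sub_le _ _ _ _).trans ?_
  have e1 := hC1 _ (eh_ip hr Y θ)
  have e2 := hC2 _ (eh_ip hr Y θ) _ (eh_ip hr Z θ)
  have e3 : |ip (eh r Y) θ - ip (eh r Z) θ| ≤ 2 / r * ‖Y - Z‖ := by
    rw [ip_sub]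
    exact (ip_le _ _).trans (eh_lip hr Y Z)
  have e4 : |1 / 2 * K (ip (eh r Y) θ)| ≤ 1 / 2 * C := by
    rw [abs_mul, abs_of_pos (by norm_num : (0 : ℝ) < 1 / 2)]
    linarith
  have e5 : |1 / 2 * K (ip (eh r Y) θ) - 1 / 2 * K (ip (eh r Z) θ)| ≤
      1 / 2 * (C * (2 / r * ‖Y - Z‖)) := by
    rw [← mul_sub, abs_mul, abs_of_pos (by norm_num : (0 : ℝ) < 1 / 2)]
    have := mul_le_mul_of_nonneg_left e3 hC0
    linarith
  have e6 : ‖orth θ (Y - pj r Y) - orth θ (Z - pj r Z)‖ ≤ 2 * (3 * ‖Y - Z‖) := by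
    rw [orth_sub]
    refine (orth_norm θ _).trans (mul_le_mul_of_nonneg_left ?_ (by norm_num))
    have e7 : Y - pj r Y - (Z - pj r Z) = (Y - Z) - (pj r Y - pj r Z) := by abel
    rw [e7]
    refine (norm_sub_le _ _).trans ?_
    have := pj_lip hr Y Z
    linarith
  have e8 : ‖orth θ (Z - pj r Z)‖ ≤ 2 * (1 + r) := by
    refine (orth_norm θ _).trans (mul_le_mul_of_nonneg_left ?_ (by norm_num))
    refine (norm_sub_le _ _).trans ?_
    have := pj_norm hr Z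
    linarith
  calc |1 / 2 * K (ip (eh r Y) θ)| * ‖orth θ (Y - pj r Y) - orth θ (Z - pj r Z)‖ +
        |1 / 2 * K (ip (eh r Y) θ) - 1 / 2 * K (ip (eh r Z) θ)| * ‖orth θ (Z - pj r Z)‖ ≤
        1 / 2 * C * (2 * (3 * ‖Y - Z‖)) + 1 / 2 * (C * (2 / r * ‖Y - Z‖)) * (2 * (1 + r)) :=
        add_le_add (mul_le_mul e4 e6 (norm_nonneg _) (by positivity))
          (mul_le_mul e5 e8 (norm_nonneg _) (by positivity))
    _ = _ := by ring

section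

variable {M : Type} [MetricSpace M] {S : OFill 2 M} {s b t : ℝ} {K L : ℝ → ℝ} {g : Sph 2 → M → ℝ}

theorem Y_norm (hg : FamG (d := 1) S t t 1 g) (hz : zf 1 t ≤ 2 / Real.pi) (q : M) :
    ‖Yf g q‖ ≤ 1 := by
  have h1 : ‖Yf g q‖ ≤ zf 1 t := hg.range q
  refine (h1.trans hz).trans ?_
  rw [div_le_one Real.pi_pos]
  linarith [Real.pi_gt_three]

omit [MetricSpace M] in
theorem Xh_norm (hA : Adm s b K L) (q : M) : ‖Xh s g q‖ ≤ s :=
  ((Fin.inv 1 le_rfl).2.1 s hA.s0 hA.s1 _ (pj_norm (zf_pos hA.s0 hA.s1.le) _)).1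

theorem Xh_lip (hA : Adm s b K L) (hg : FamG (d := 1) S t t 1 g) (q q' : M) :
    ‖Xh s g q - Xh s g q'‖ ≤ 4 * dist q q' := by
  have hr := zf_pos hA.s0 hA.s1.le
  have h1 := (Fin.inv 1 le_rfl).2.2 s hA.s0 hA.s1 _ _ (pj_norm hr (Yf g q))
    (pj_norm hr (Yf g q'))
  have h2 := pj_lip hr (Yf g q) (Yf g q')
  have h3 := Y_lip hg q q'
  unfold Xh
  norm_num at h1
  linarith

theorem F_lip (hA : Adm s b K L) (hg : FamG (d := 1) S t t 1 g) (hz : zf 1 t ≤ 2 / Real.pi) :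
    ∃ C : NNReal, ∀ θ, LipschitzWith C (Fm s K g θ) := by
  obtain ⟨C, hC0, hC⟩ := Bt_lip hA
  obtain ⟨K1, hK1def⟩ : ∃ K1, K1 = 2 * (√(1 - s ^ 2))⁻¹ + 4 * ((√(1 - s ^ 2))⁻¹) ^ 3 := ⟨_, rfl⟩
  have hK1 : 0 ≤ K1 := by rw [hK1def]; positivity
  refine ⟨⟨K1 * 4 + C + 1, by positivity⟩, fun θ => LipschitzWith.of_dist_le_mul fun q q' => ?_⟩
  rw [dist_eq_norm]
  change ‖Fm s K g θ q - Fm s K g θ q'‖ ≤ (K1 * 4 + C + 1) * dist q q'
  have e : Fm s K g θ q - Fm s K g θ q' = (Uf θ (Xh s g q) - Uf θ (Xh s g q')) +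
      (Bt s K θ (Yf g q) - Bt s K θ (Yf g q')) + (g θ q - g θ q') • (θ : E 2) := by
    unfold Fm
    module
  rw [e]
  have h1 : ‖Uf θ (Xh s g q) - Uf θ (Xh s g q')‖ ≤ K1 * (4 * dist q q') := by
    have h2 := Uf_lip hA.s0 hA.s1 θ (Xh_norm (g := g) hA q) (Xh_norm (g := g) hA q')
    rw [← hK1def] at h2
    exact h2.trans (mul_le_mul_of_nonneg_left (Xh_lip hA hg q q') hK1)
  have h2 : ‖Bt s K θ (Yf g q) - Bt s K θ (Yf g q')‖ ≤ C * dist q q' :=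
    (hC θ _ _ (Y_norm hg hz q) (Y_norm hg hz q')).trans
      (mul_le_mul_of_nonneg_left (Y_lip hg q q') hC0)
  have h3 : ‖(g θ q - g θ q') • (θ : E 2)‖ ≤ dist q q' := by
    rw [norm_smul, norm_sph, mul_one, Real.norm_eq_abs]
    have := hg.lip θ q q'
    rwa [div_one] at this
  refine (norm_add_le _ _).trans ?_
  have h4 := norm_add_le (Uf θ (Xh s g q) - Uf θ (Xh s g q'))
    (Bt s K θ (Yf g q) - Bt s K θ (Yf g q'))
  linarith

theorem HX_lip (hA : Adm s b K L) (hg : FamG (d := 1) S t t 1 g) :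
    ∃ C : NNReal, LipschitzWith C (Hf ∘ Xh s g) := by
  obtain ⟨K2, hK2def⟩ : ∃ K2, K2 = 2 + (√(1 - s ^ 2))⁻¹ * ((√(1 - s ^ 2))⁻¹ +
    4 * ((√(1 - s ^ 2))⁻¹) ^ 3) := ⟨_, rfl⟩
  have hK2 : 0 ≤ K2 := by rw [hK2def]; positivity
  refine ⟨⟨K2 * 4, by positivity⟩, LipschitzWith.of_dist_le_mul fun q q' => ?_⟩
  rw [dist_eq_norm]
  change ‖Hf (Xh s g q) - Hf (Xh s g q')‖ ≤ (K2 * 4) * dist q q'
  have h2 := Hf_lip (d := 1) hA.s0 hA.s1 (Xh_norm (g := g) hA q) (Xh_norm (g := g) hA q')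
  rw [← hK2def] at h2
  refine (h2.trans (mul_le_mul_of_nonneg_left (Xh_lip hA hg q q') hK2)).trans (le_of_eq ?_)
  ring

theorem Y_lipW (hg : FamG (d := 1) S t t 1 g) : LipschitzWith 1 (Yf g) :=
  LipschitzWith.of_dist_le_mul fun q q' => by
    rw [dist_eq_norm]
    simpa using Y_lip hg q q'

theorem P_lipW (hA : Adm s b K L) (hg : FamG (d := 1) S t t 1 g) :
    LipschitzWith 2 (fun q => pj (zf 1 s) (Yf g q)) :=
  LipschitzWith.of_dist_le_mul fun q q' => by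
    rw [dist_eq_norm]
    refine (pj_lip (zf_pos hA.s0 hA.s1.le) _ _).trans ?_
    have := Y_lip hg q q'
    change 2 * _ ≤ 2 * _
    linarith

theorem F_cont (hA : Adm s b K L) (hg : FamG (d := 1) S t t 1 g) :
    Continuous (fun z : Sph 2 × M => Fm s K g z.1 z.2) := by
  have hr := zf_pos hA.s0 hA.s1.le
  have c1 : Continuous (fun z : Sph 2 × M => Xh s g z.2) := by
    have h1 : LipschitzWith 4 (Xh s g) :=
      LipschitzWith.of_dist_le_mul fun q q' => by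
        rw [dist_eq_norm]
        exact Xh_lip hA hg q q'
    exact h1.continuous.comp continuous_snd
  have c2 : Continuous (fun z : Sph 2 × M => (z.1 : E 2)) :=
    continuous_subtype_val.comp continuous_fst
  have c3 : Continuous (fun z : Sph 2 × M => ip (Xh s g z.2) z.1) := by
    unfold ip
    exact c1.inner c2
  have c4 : Continuous (fun z : Sph 2 × M => (√(1 - ip (Xh s g z.2) z.1 ^ 2))⁻¹) := by
    refine Continuous.inv₀ (Real.continuous_sqrt.comp (continuous_const.sub (c3.pow 2))) ?_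
    intro z
    have h0 := hA.s0
    have h1 : |ip (Xh s g z.2) z.1| ≤ s := (ip_le _ _).trans (Xh_norm hA _)
    have h2 : ip (Xh s g z.2) z.1 ^ 2 ≤ s ^ 2 := by
      rw [sq_le_sq, abs_of_pos h0]
      exact h1
    have h3 := hA.s1
    exact (Real.sqrt_pos.2 (by nlinarith)).ne'
  have c5 : Continuous (fun z : Sph 2 × M => Yf g z.2) :=
    (Y_lipW hg).continuous.comp continuous_snd
  have c6 : Continuous (fun z : Sph 2 × M => eh (zf 1 s) (Yf g z.2)) := by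
    have h1 : LipschitzWith ⟨2 / zf 1 s, by positivity⟩ (eh (zf 1 s)) :=
      LipschitzWith.of_dist_le_mul fun q q' => by
        rw [dist_eq_norm, dist_eq_norm]
        exact eh_lip hr q q'
    exact h1.continuous.comp c5
  have c7 : Continuous (fun z : Sph 2 × M => ip (eh (zf 1 s) (Yf g z.2)) z.1) := by
    unfold ip
    exact c6.inner c2
  have c8 : Continuous (fun z : Sph 2 × M => K (ip (eh (zf 1 s) (Yf g z.2)) z.1)) :=
    hA.contK.comp_continuous c7 fun z => eh_ip hr _ _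
  have c9 : Continuous (fun z : Sph 2 × M => Yf g z.2 - pj (zf 1 s) (Yf g z.2)) := by
    unfold pj
    exact c5.sub ((continuous_const (y := zf 1 s)).smul c6)
  have c10 : Continuous (fun z : Sph 2 × M => ip (Yf g z.2 - pj (zf 1 s) (Yf g z.2)) z.1) := by
    unfold ip
    exact c9.inner c2
  unfold Fm Bt Uf orth
  exact ((c4.smul (c1.sub (c3.smul c2))).add
    ((continuous_const.mul c8).smul (c9.sub (c10.smul c2)))).add
    ((Pool.Agent.N335.FBLIPG.cont_g (d := 1) one_pos hg).smul c2)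

/-! ### the boundary -/

theorem Y_bd (hg : FamG (d := 1) S t t 1 g) (x : Sph 2) :
    Yf g (S.bd x) = zf 1 t • (x : E 2) := by
  have h1 : Yf g (S.bd x) = Zf (t • (x : E 2)) := by
    unfold Zf Yf
    congr 1
    funext θ
    have h2 := hg.bdv θ x
    rw [div_one] at h2
    rw [h2, ip_smul]
    rfl
  rw [h1]
  exact (Fin.rad 1 le_rfl).1 t _ (norm_sph x)

theorem bd_data (hA : Adm s b K L) (hst : s < t) (ht1 : t < 1) (hg : FamG (d := 1) S t t 1 g)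
    (x : Sph 2) : zf 1 s < zf 1 t ∧ ‖Yf g (S.bd x)‖ = zf 1 t ∧
      eh (zf 1 s) (Yf g (S.bd x)) = (x : E 2) ∧ pj (zf 1 s) (Yf g (S.bd x)) = zf 1 s • (x : E 2) ∧
      Xh s g (S.bd x) = s • (x : E 2) := by
  have ht0 : 0 < t := hA.s0.trans hst
  have h1 : zf 1 s < zf 1 t :=
    (Fin.rad 1 le_rfl).2.1 ⟨hA.s0.le, hA.s1.le⟩ ⟨ht0.le, ht1.le⟩ hst
  have hr := zf_pos hA.s0 hA.s1.le
  have ht : 0 < zf 1 t := hr.trans h1
  have h2 : ‖Yf g (S.bd x)‖ = zf 1 t := by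
    rw [Y_bd hg, norm_smul, norm_sph, mul_one, Real.norm_eq_abs, abs_of_pos ht]
  have h3 : eh (zf 1 s) (Yf g (S.bd x)) = (x : E 2) := by
    rw [eh_out (by rw [h2]; exact h1.le), h2, Y_bd hg, smul_smul, inv_mul_cancel₀ ht.ne',
      one_smul]
  have h4 : pj (zf 1 s) (Yf g (S.bd x)) = zf 1 s • (x : E 2) := by
    unfold pj
    rw [h3]
  refine ⟨h1, h2, h3, h4, ?_⟩
  unfold Xh
  rw [h4]
  exact Ri_out hA.s0 hA.s1 (norm_sph x)

theorem F_bd (hA : Adm s b K L) (hst : s < t) (ht1 : t < 1) (hg : FamG (d := 1) S t t 1 g)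
    (θ x : Sph 2) : Fm s K g θ (S.bd x) = Wm s t K θ (x : E 2) := by
  obtain ⟨h1, h2, h3, h4, h5⟩ := bd_data hA hst ht1 hg x
  have ht0 : 0 < t := hA.s0.trans hst
  unfold Fm Wm Bt
  rw [h5, h3, h4, Y_bd hg]
  have h6 := hg.bdv θ x
  rw [div_one] at h6
  rw [h6]
  have h7 : orth θ (zf 1 t • (x : E 2) - zf 1 s • (x : E 2)) =
      (zf 1 t - zf 1 s) • orth θ (x : E 2) := by
    unfold orth ip
    rw [← sub_smul, real_inner_smul_left]
    module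
  rw [h7, smul_smul]
  congr 3
  ring

end

theorem W_lip {s b t : ℝ} {K L : ℝ → ℝ} (hA : Adm s b K L) (ht0 : 0 < t) (ht1 : t < 1) :
    ∃ C : NNReal, ∀ θ, LipschitzOnWith C (Wm s t K θ) (closedBall 0 1) := by
  obtain ⟨C, hC0, hC1, hC2⟩ := hA.bd
  obtain ⟨K1, hK1def⟩ : ∃ K1, K1 = 2 * (√(1 - s ^ 2))⁻¹ + 4 * ((√(1 - s ^ 2))⁻¹) ^ 3 := ⟨_, rfl⟩
  have hK1 : 0 ≤ K1 := by rw [hK1def]; positivity
  obtain ⟨c, hcdef⟩ : ∃ c, c = (√(1 - t ^ 2))⁻¹ := ⟨_, rfl⟩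
  have hc0 : 0 ≤ c := by rw [hcdef]; positivity
  obtain ⟨D, hD⟩ : ∃ D, D = |zf 1 t - zf 1 s| := ⟨_, rfl⟩
  have hD0 : 0 ≤ D := by rw [hD]; positivity
  refine ⟨⟨K1 + 2 * (D * C) + c, by positivity⟩, fun θ =>
    LipschitzOnWith.of_dist_le_mul fun y hy y' hy' => ?_⟩
  rw [dist_eq_norm, dist_eq_norm]
  change ‖Wm s t K θ y - Wm s t K θ y'‖ ≤ (K1 + 2 * (D * C) + c) * ‖y - y'‖
  have hy1 : ‖y‖ ≤ 1 := mem_closedBall_zero_iff.1 hy
  have hy1' : ‖y'‖ ≤ 1 := mem_closedBall_zero_iff.1 hy'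
  have e : Wm s t K θ y - Wm s t K θ y' = (Uf θ (s • y) - Uf θ (s • y')) +
      ((1 / 2 * ((zf 1 t - zf 1 s) * K (ip y θ))) • orth θ y -
        (1 / 2 * ((zf 1 t - zf 1 s) * K (ip y' θ))) • orth θ y') +
      (Real.arcsin (t * ip y θ) - Real.arcsin (t * ip y' θ)) • (θ : E 2) := by
    unfold Wm
    module
  have hs0 := hA.s0
  have hs1 := hA.s1
  have hsn : ∀ z : E 2, ‖z‖ ≤ 1 → ‖s • z‖ ≤ s := by
    intro z hz
    rw [norm_smul, Real.norm_eq_abs, abs_of_pos hs0]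
    exact mul_le_of_le_one_right hs0.le hz
  have h1 : ‖Uf θ (s • y) - Uf θ (s • y')‖ ≤ K1 * ‖y - y'‖ := by
    have h2 := Uf_lip hs0 hs1 θ (hsn y hy1) (hsn y' hy1')
    rw [← hK1def, ← smul_sub, norm_smul, Real.norm_eq_abs, abs_of_pos hs0] at h2
    refine h2.trans (mul_le_mul_of_nonneg_left ?_ hK1)
    exact mul_le_of_le_one_left (norm_nonneg _) hs1.le
  have him : ∀ z : E 2, ‖z‖ ≤ 1 → ip z θ ∈ Icc (-1 : ℝ) 1 := fun z hz =>
    abs_le.1 ((ip_le z θ).trans hz)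
  have hdi : |ip y θ - ip y' θ| ≤ ‖y - y'‖ := by
    rw [ip_sub]
    exact ip_le _ _
  have h2 : ‖(1 / 2 * ((zf 1 t - zf 1 s) * K (ip y θ))) • orth θ y -
        (1 / 2 * ((zf 1 t - zf 1 s) * K (ip y' θ))) • orth θ y'‖ ≤
        2 * (D * C) * ‖y - y'‖ := by
    refine (smul_sub_le _ _ _ _).trans ?_
    have e1 : |1 / 2 * ((zf 1 t - zf 1 s) * K (ip y θ))| ≤ 1 / 2 * (D * C) := by
      rw [abs_mul, abs_mul, ← hD, abs_of_pos (by norm_num : (0 : ℝ) < 1 / 2)]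
      have := mul_le_mul_of_nonneg_left (hC1 _ (him y hy1)) hD0
      linarith
    have e2 : |1 / 2 * ((zf 1 t - zf 1 s) * K (ip y θ)) -
        1 / 2 * ((zf 1 t - zf 1 s) * K (ip y' θ))| ≤ 1 / 2 * (D * (C * ‖y - y'‖)) := by
      rw [← mul_sub, ← mul_sub, abs_mul, abs_mul, ← hD,
        abs_of_pos (by norm_num : (0 : ℝ) < 1 / 2)]
      have h3 := hC2 _ (him y hy1) _ (him y' hy1')
      have h4 : |K (ip y θ) - K (ip y' θ)| ≤ C * ‖y - y'‖ :=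
        h3.trans (mul_le_mul_of_nonneg_left hdi hC0)
      have := mul_le_mul_of_nonneg_left h4 hD0
      linarith
    have e3 : ‖orth θ y - orth θ y'‖ ≤ 2 * ‖y - y'‖ := by
      rw [orth_sub]
      exact orth_norm θ _
    have e4 : ‖orth θ y'‖ ≤ 2 * 1 := (orth_norm θ _).trans (by linarith)
    calc |1 / 2 * ((zf 1 t - zf 1 s) * K (ip y θ))| * ‖orth θ y - orth θ y'‖ +
          |1 / 2 * ((zf 1 t - zf 1 s) * K (ip y θ)) -
          1 / 2 * ((zf 1 t - zf 1 s) * K (ip y' θ))| * ‖orth θ y'‖ ≤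
          1 / 2 * (D * C) * (2 * ‖y - y'‖) + 1 / 2 * (D * (C * ‖y - y'‖)) * (2 * 1) :=
          add_le_add (mul_le_mul e1 e3 (norm_nonneg _) (by positivity))
            (mul_le_mul e2 e4 (norm_nonneg _) (by positivity))
      _ = _ := by ring
  have h3 : ‖(Real.arcsin (t * ip y θ) - Real.arcsin (t * ip y' θ)) • (θ : E 2)‖ ≤
      c * ‖y - y'‖ := by
    rw [norm_smul, norm_sph, mul_one, Real.norm_eq_abs]
    have ht : ∀ z : E 2, ‖z‖ ≤ 1 → |t * ip z θ| ≤ t := by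
      intro z hz
      rw [abs_mul, abs_of_pos ht0]
      exact mul_le_of_le_one_right ht0.le ((ip_le z θ).trans hz)
    have h4 := asin_lip ht0 ht1 (ht y hy1) (ht y' hy1')
    rw [← hcdef, ← mul_sub, abs_mul, abs_of_pos ht0] at h4
    refine h4.trans (mul_le_mul_of_nonneg_left ?_ hc0)
    exact (mul_le_of_le_one_left (abs_nonneg _) ht1.le).trans hdi
  rw [e]
  refine (norm_add_le _ _).trans ?_
  have h4 := norm_add_le (Uf θ (s • y) - Uf θ (s • y'))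
    ((1 / 2 * ((zf 1 t - zf 1 s) * K (ip y θ))) • orth θ y -
        (1 / 2 * ((zf 1 t - zf 1 s) * K (ip y' θ))) • orth θ y')
  linarith

theorem Hs_lip {s b : ℝ} {K L : ℝ → ℝ} (hA : Adm s b K L) :
    ∃ C : NNReal, LipschitzOnWith C (fun y : E 2 => Hf (s • y)) (closedBall 0 1) := by
  obtain ⟨K2, hK2def⟩ : ∃ K2, K2 = 2 + (√(1 - s ^ 2))⁻¹ * ((√(1 - s ^ 2))⁻¹ +
    4 * ((√(1 - s ^ 2))⁻¹) ^ 3) := ⟨_, rfl⟩
  have hK2 : 0 ≤ K2 := by rw [hK2def]; positivity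
  have hs0 := hA.s0
  have hs1 := hA.s1
  have hsn : ∀ z : E 2, ‖z‖ ≤ 1 → ‖s • z‖ ≤ s := by
    intro z hz
    rw [norm_smul, Real.norm_eq_abs, abs_of_pos hs0]
    exact mul_le_of_le_one_right hs0.le hz
  refine ⟨⟨K2, hK2⟩, LipschitzOnWith.of_dist_le_mul fun y hy y' hy' => ?_⟩
  rw [dist_eq_norm, dist_eq_norm]
  have h2 := Hf_lip (d := 1) hs0 hs1 (hsn y (mem_closedBall_zero_iff.1 hy))
    (hsn y' (mem_closedBall_zero_iff.1 hy'))
  rw [← hK2def, ← smul_sub, norm_smul, Real.norm_eq_abs, abs_of_pos hs0] at h2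
  refine h2.trans (mul_le_mul_of_nonneg_left ?_ hK2)
  exact mul_le_of_le_one_left (norm_nonneg _) hs1.le

theorem sm_lip (c : ℝ) : ∃ C : NNReal, LipschitzOnWith C (fun y : E 2 => c • y)
    (closedBall 0 1) := by
  refine ⟨⟨|c|, abs_nonneg c⟩, LipschitzOnWith.of_dist_le_mul fun y _ y' _ => ?_⟩
  rw [dist_eq_norm, dist_eq_norm, ← smul_sub, norm_smul, Real.norm_eq_abs]
  rfl

end Pool.Agent.H72.FA
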