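import Pool.Agent.H72.FA.Geo

/-!
# The maps of the calibration (helper72)
-/

set_option autoImplicit false

open MeasureTheory Metric Set Filter Topology InnerProductGeometry Matrix

namespace Pool.Agent.H72.FA

open Pool.Agent.H241R3.FV Pool.Agent.N526.CP Pool.Agent.N979.CP

/-- the first moment of the functions -/
noncomputable def Yf {M : Type} (g : Sph 2 → M → ℝ) (q : M) : E 2 :=
  ∫ θ : Sph 2, g θ q • (θ : E 2) ∂(sg 2)

/-- the direction, cut off -/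
noncomputable def eh (r : ℝ) (Y : E 2) : E 2 := (max r ‖Y‖)⁻¹ • Y

/-- the projection to the ball of radius `r` -/
noncomputable def pj (r : ℝ) (Y : E 2) : E 2 := r • eh r Y

/-- the map `X` of the library, cut off -/
noncomputable def Xh {M : Type} (s : ℝ) (g : Sph 2 → M → ℝ) (q : M) : E 2 :=
  Ri (pj (zf 1 s) (Yf g q))

/-- the part of `v` orthogonal to `θ` -/
noncomputable def orth (θ : Sph 2) (v : E 2) : E 2 := v - ip v θ • (θ : E 2)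

/-- the second term of the maps -/
noncomputable def Bt (s : ℝ) (K : ℝ → ℝ) (θ : Sph 2) (Y : E 2) : E 2 :=
  (1 / 2 * K (ip (eh (zf 1 s) Y) θ)) • orth θ (Y - pj (zf 1 s) Y)

/-- the maps of the calibration -/
noncomputable def Fm {M : Type} (s : ℝ) (K : ℝ → ℝ) (g : Sph 2 → M → ℝ) (θ : Sph 2) (q : M) : E 2 :=
  Uf θ (Xh s g q) + Bt s K θ (Yf g q) + g θ q • (θ : E 2)

/-- the tangent vector -/
noncomputable def tp (θ : Sph 2) : E 2 := !₂[(θ : E 2) 1, -((θ : E 2) 0)]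

theorem tp_zero (θ : Sph 2) : tp θ 0 = (θ : E 2) 1 := rfl
theorem tp_one (θ : Sph 2) : tp θ 1 = -((θ : E 2) 0) := rfl

theorem sq_sph (θ : Sph 2) : (θ : E 2) 0 ^ 2 + (θ : E 2) 1 ^ 2 = 1 := by
  rw [← norm2, norm_sph, one_pow]

theorem cr_tp (θ : Sph 2) : cr (tp θ) (θ : E 2) = 1 := by
  unfold cr
  rw [tp_zero, tp_one]
  have := sq_sph θ
  linarith

theorem orth_eq (θ : Sph 2) (u : E 2) :
    orth θ u = (u 0 * (θ : E 2) 1 + u 1 * -((θ : E 2) 0)) • tp θ := by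
  have h := sq_sph θ
  unfold orth ip
  rw [inner2]
  ext i
  fin_cases i
  · simp only [PiLp.sub_apply, PiLp.smul_apply, smul_eq_mul, Fin.zero_eta, tp_zero]
    linear_combination (-(u 0)) * h
  · simp only [PiLp.sub_apply, PiLp.smul_apply, smul_eq_mul, Fin.mk_one, tp_one]
    linear_combination (-(u 1)) * h

theorem zf_pos {s : ℝ} (h0 : 0 < s) (h1 : s ≤ 1) : 0 < zf 1 s := by
  obtain ⟨-, h2, -, h3⟩ := Fin.rad 1 le_rfl
  have h4 := h2 ⟨le_rfl, zero_le_one⟩ ⟨h0.le, h1⟩ h0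
  rwa [h3] at h4

theorem Ri_out {s : ℝ} (h0 : 0 < s) (h1 : s < 1) {u : E 2} (hu : ‖u‖ = 1) :
    Ri (zf 1 s • u) = s • u := by
  have h2 := (Fin.rad 1 le_rfl).1 s u hu
  rw [← h2]
  refine (Fin.inv 1 le_rfl).1 _ ?_
  rw [norm_smul, hu, mul_one, Real.norm_eq_abs, abs_of_pos h0]
  exact h1

theorem eh_out {r : ℝ} {Y : E 2} (h : r ≤ ‖Y‖) : eh r Y = ‖Y‖⁻¹ • Y := by
  unfold eh
  rw [max_eq_right h]

theorem pj_in {r : ℝ} (hr : 0 < r) {Y : E 2} (h : ‖Y‖ ≤ r) : pj r Y = Y := by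
  unfold pj eh
  rw [max_eq_left h, smul_smul, mul_inv_cancel₀ hr.ne', one_smul]

/-- the maps in the outer region -/
theorem Fm_out {M : Type} {s : ℝ} (h0 : 0 < s) (h1 : s < 1) (K : ℝ → ℝ) (g : Sph 2 → M → ℝ)
    (θ : Sph 2) (q : M) (hq : zf 1 s < ‖Yf g q‖) :
    Fm s K g θ q = (s * (((Yf g q) 0 * (θ : E 2) 1 + (Yf g q) 1 * -((θ : E 2) 0)) * ‖Yf g q‖⁻¹ *
        (√(1 - (s * (((Yf g q) 0 * (θ : E 2) 0 + (Yf g q) 1 * (θ : E 2) 1) * ‖Yf g q‖⁻¹)) ^ 2))⁻¹) +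
        1 / 2 * ((‖Yf g q‖ - zf 1 s) * (((Yf g q) 0 * (θ : E 2) 1 + (Yf g q) 1 * -((θ : E 2) 0)) *
          ‖Yf g q‖⁻¹ * K (((Yf g q) 0 * (θ : E 2) 0 + (Yf g q) 1 * (θ : E 2) 1) *
          ‖Yf g q‖⁻¹)))) • tp θ + g θ q • (θ : E 2) := by
  have hr := zf_pos h0 h1.le
  have hY : 0 < ‖Yf g q‖ := hr.trans hq
  generalize hYd : Yf g q = Y at hq hY
  obtain ⟨u, hu⟩ : ∃ u : E 2, u = ‖Y‖⁻¹ • Y := ⟨_, rfl⟩
  have hun : ‖u‖ = 1 := by rw [hu, norm_smul, norm_inv, norm_norm, inv_mul_cancel₀ hY.ne']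
  have hX : Xh s g q = s • u := by
    unfold Xh pj
    rw [hYd, eh_out hq.le, ← hu]
    exact Ri_out h0 h1 hun
  have hN : Y - pj (zf 1 s) Y = (‖Y‖ - zf 1 s) • u := by
    unfold pj
    rw [eh_out hq.le, ← hu, sub_smul]
    congr 1
    rw [hu, smul_smul, mul_inv_cancel₀ hY.ne', one_smul]
  have hu0 : u 0 = Y 0 * ‖Y‖⁻¹ := by rw [hu]; simp [mul_comm]
  have hu1 : u 1 = Y 1 * ‖Y‖⁻¹ := by rw [hu]; simp [mul_comm]
  have hip : ip u θ = (Y 0 * (θ : E 2) 0 + Y 1 * (θ : E 2) 1) * ‖Y‖⁻¹ := by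
    unfold ip
    rw [inner2, hu0, hu1]
    ring
  have hiz : u 0 * (θ : E 2) 1 + u 1 * -((θ : E 2) 0) =
      (Y 0 * (θ : E 2) 1 + Y 1 * -((θ : E 2) 0)) * ‖Y‖⁻¹ := by
    rw [hu0, hu1]
    ring
  have hips : ip (s • u) θ = s * ip u θ := by
    unfold ip
    rw [real_inner_smul_left]
  have hU : Uf θ (s • u) = (√(1 - (s * ip u θ) ^ 2))⁻¹ • orth θ (s • u) := by
    unfold Uf orth
    rw [hips]
  have ho : ∀ a : ℝ, orth θ (a • u) = a • orth θ u := by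
    intro a
    unfold orth ip
    rw [real_inner_smul_left, smul_sub, smul_smul]
  unfold Fm Bt
  rw [hX, hYd, hU, hN, eh_out hq.le, ← hu, ho, ho, orth_eq, hiz, hip]
  congr 1
  rw [smul_smul, smul_smul, smul_smul, smul_smul, ← add_smul]
  congr 1
  ring

end Pool.Agent.H72.FA
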