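import Pool.Agent.H72.FA.Stm

/-!
# The comass of the form in the outer region (helper72)
-/

set_option autoImplicit false

open MeasureTheory Metric Set Filter Topology InnerProductGeometry Matrix

namespace Pool.Agent.H72.FA

open Pool.Agent.H241R3.FV Pool.Agent.N526.CP Pool.Agent.N979.CP

/-- the rotation by a right angle -/
noncomputable def pe (e : E 2) : E 2 := !₂[-(e 1), e 0]

/-- the cross product -/
def cr (a b : E 2) : ℝ := a 0 * b 1 - a 1 * b 0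

theorem inner2 (a b : E 2) : inner ℝ a b = a 0 * b 0 + a 1 * b 1 := by
  rw [PiLp.inner_apply, Fin.sum_univ_two]
  simp [mul_comm]

theorem norm2 (a : E 2) : ‖a‖ ^ 2 = a 0 ^ 2 + a 1 ^ 2 := by
  rw [EuclideanSpace.real_norm_sq_eq, Fin.sum_univ_two]

theorem pe_zero (e : E 2) : pe e 0 = -(e 1) := rfl
theorem pe_one (e : E 2) : pe e 1 = e 0 := rfl

theorem norm_pe (e : E 2) : ‖pe e‖ = ‖e‖ := by
  have h : ‖pe e‖ ^ 2 = ‖e‖ ^ 2 := by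
    rw [norm2, norm2, pe_zero, pe_one]
    ring
  exact (pow_left_inj₀ (norm_nonneg _) (norm_nonneg _) two_ne_zero).1 h

theorem inner_pe (e : E 2) : inner ℝ e (pe e) = 0 := by
  rw [inner2, pe_zero, pe_one]
  ring

theorem cr_le (a b : E 2) : cr a b ≤ ‖a‖ * ‖b‖ := by
  have h1 : cr a b = inner ℝ a (-(pe b)) := by
    rw [inner_neg_right, inner2, pe_zero, pe_one]
    unfold cr
    ring
  rw [h1]
  refine (real_inner_le_norm _ _).trans ?_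
  rw [norm_neg, norm_pe]

theorem prob : IsProbabilityMeasure (sg 2) := (SPH.t 1 le_rfl).1

theorem ip_mem {e : E 2} (he : ‖e‖ = 1) (θ : Sph 2) : ip e θ ∈ Icc (-1 : ℝ) 1 := by
  have h := CAPV.ip_abs e θ
  rw [he] at h
  exact abs_le.1 h

theorem ip_cont (e : E 2) : Continuous fun θ : Sph 2 => ip e θ := by
  unfold ip
  fun_prop

theorem comp_cont {f : ℝ → ℝ} (hf : ContinuousOn f (Icc (-1) 1)) {e : E 2} (he : ‖e‖ = 1) :
    Continuous fun θ : Sph 2 => f (ip e θ) :=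
  hf.comp_continuous (ip_cont e) (ip_mem he)

theorem cint {f : Sph 2 → ℝ} (hf : Continuous f) : Integrable f (sg 2) :=
  have := prob
  hf.integrable_of_hasCompactSupport (HasCompactSupport.of_compactSpace _)

theorem gram_cc {f : ℝ → ℝ} (hf : ContinuousOn f (Icc (-1) 1)) {e : E 2} (he : ‖e‖ = 1) :
    ∫ θ, f (ip e θ) * (ip e θ * ip e θ) ∂(sg 2) = av (fun x => x ^ 2 * f x) := by
  have h := (SPH.t 1 le_rfl).2.2 f e e e he hf
  rw [real_inner_self_eq_norm_sq, he] at h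
  refine h.trans ?_
  unfold av
  have h2 : ∀ θ : Sph 2, f ((θ : E 2) 0) * (θ : E 2) 0 ^ 2 =
      (θ : E 2) 0 ^ 2 * f ((θ : E 2) 0) := fun θ => mul_comm _ _
  simp only [h2]
  norm_num

theorem gram_ss {f : ℝ → ℝ} (hf : ContinuousOn f (Icc (-1) 1)) {e : E 2} (he : ‖e‖ = 1) :
    ∫ θ, f (ip e θ) * (ip (pe e) θ * ip (pe e) θ) ∂(sg 2) = av (fun x => (1 - x ^ 2) * f x) := by
  have h := (SPH.t 1 le_rfl).2.2 f e (pe e) (pe e) he hf
  rw [real_inner_self_eq_norm_sq, norm_pe, he, inner_pe] at h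
  refine h.trans ?_
  unfold av
  have h2 : ∀ θ : Sph 2, f ((θ : E 2) 0) * (1 - (θ : E 2) 0 ^ 2) =
      (1 - (θ : E 2) 0 ^ 2) * f ((θ : E 2) 0) := fun θ => mul_comm _ _
  simp only [h2]
  norm_num

theorem gram_cs {f : ℝ → ℝ} (hf : ContinuousOn f (Icc (-1) 1)) {e : E 2} (he : ‖e‖ = 1) :
    ∫ θ, f (ip e θ) * (ip e θ * ip (pe e) θ) ∂(sg 2) = 0 := by
  have h := (SPH.t 1 le_rfl).2.2 f e e (pe e) he hf
  rw [real_inner_self_eq_norm_sq, he, inner_pe] at h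
  refine h.trans ?_
  norm_num

/-- a positive semidefinite quadratic form in two vectors -/
theorem psd (X Y : E 2) {p q r : ℝ} (hp : 0 ≤ p) (hq : 0 ≤ q) (h : r ^ 2 ≤ p * q) :
    0 ≤ p * ‖X‖ ^ 2 - 2 * r * inner ℝ X Y + q * ‖Y‖ ^ 2 := by
  have h1 : |inner ℝ X Y| ≤ ‖X‖ * ‖Y‖ := abs_real_inner_le_norm X Y
  have h2 : |r| ≤ √p * √q := by
    rw [← Real.sqrt_mul hp]
    exact Real.abs_le_sqrt h
  have h3 : 2 * r * inner ℝ X Y ≤ 2 * ((√p * ‖X‖) * (√q * ‖Y‖)) := by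
    have h4 : r * inner ℝ X Y ≤ |r| * |inner ℝ X Y| := by
      rw [← abs_mul]
      exact le_abs_self _
    have h5 : |r| * |inner ℝ X Y| ≤ (√p * √q) * (‖X‖ * ‖Y‖) :=
      mul_le_mul h2 h1 (abs_nonneg _) (by positivity)
    nlinarith
  have h6 : (√p * ‖X‖) ^ 2 = p * ‖X‖ ^ 2 := by rw [mul_pow, Real.sq_sqrt hp]
  have h7 : (√q * ‖Y‖) ^ 2 = q * ‖Y‖ ^ 2 := by rw [mul_pow, Real.sq_sqrt hq]
  nlinarith [sq_nonneg (√p * ‖X‖ - √q * ‖Y‖)]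

theorem int4 {f1 f2 f3 f4 : Sph 2 → ℝ} (h1 : Integrable f1 (sg 2)) (h2 : Integrable f2 (sg 2))
    (h3 : Integrable f3 (sg 2)) (h4 : Integrable f4 (sg 2)) :
    ∫ θ, (f1 θ + f2 θ + f3 θ + f4 θ) ∂(sg 2) =
      (∫ θ, f1 θ ∂(sg 2)) + (∫ θ, f2 θ ∂(sg 2)) + (∫ θ, f3 θ ∂(sg 2)) + ∫ θ, f4 θ ∂(sg 2) := by
  have e1 := integral_add h1 h2
  have e2 := integral_add (h1.add h2) h3
  have e3 := integral_add ((h1.add h2).add h3) h4
  simp only [Pi.add_apply] at e1 e2 e3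
  rw [e3, e2, e1]

theorem add4 {f1 f2 f3 f4 : Sph 2 → ℝ} (h1 : Integrable f1 (sg 2)) (h2 : Integrable f2 (sg 2))
    (h3 : Integrable f3 (sg 2)) (h4 : Integrable f4 (sg 2)) :
    Integrable (fun θ => f1 θ + f2 θ + f3 θ + f4 θ) (sg 2) := ((h1.add h2).add h3).add h4

theorem int2 {f1 f2 : Sph 2 → ℝ} (h1 : Integrable f1 (sg 2)) (h2 : Integrable f2 (sg 2)) :
    ∫ θ, (f1 θ + f2 θ) ∂(sg 2) = (∫ θ, f1 θ ∂(sg 2)) + (∫ θ, f2 θ ∂(sg 2)) := integral_add h1 h2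

theorem zero_mem (θ : Sph 2) : (θ : E 2) 0 ∈ Icc (-1 : ℝ) 1 := by
  have h1 : ip (EuclideanSpace.single 0 1 : E 2) θ = (θ : E 2) 0 := by
    unfold ip
    rw [EuclideanSpace.inner_single_left]
    simp
  rw [← h1]
  exact ip_mem (by simp) θ

theorem zero_cont {f : ℝ → ℝ} (hf : ContinuousOn f (Icc (-1) 1)) :
    Continuous fun θ : Sph 2 => f ((θ : E 2) 0) :=
  hf.comp_continuous (by fun_prop) zero_mem

theorem av_ip {f : ℝ → ℝ} (hf : ContinuousOn f (Icc (-1) 1)) {e : E 2} (he : ‖e‖ = 1) :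
    ∫ θ, f (ip e θ) ∂(sg 2) = av f := by
  have e1 := gram_cc hf he
  have e2 := gram_ss hf he
  have hc := ip_cont e
  have hs := ip_cont (pe e)
  have hW := comp_cont hf he
  have hcs : ∀ θ : Sph 2, ip e θ * ip e θ + ip (pe e) θ * ip (pe e) θ = 1 := by
    intro θ
    unfold ip
    rw [inner2, inner2, pe_zero, pe_one]
    have n1 := norm2 e
    have n2 := norm2 (θ : E 2)
    rw [he] at n1
    rw [norm_sph] at n2
    linear_combination (-1 : ℝ) * n2 * ((e 0) ^ 2 + (e 1) ^ 2) - n1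
  have f1 := int2 (cint (hW.mul (hc.mul hc))) (cint (hW.mul (hs.mul hs)))
  simp only [Pi.mul_apply] at f1
  rw [e1, e2] at f1
  have f2 : ∀ θ : Sph 2, f (ip e θ) * (ip e θ * ip e θ) +
      f (ip e θ) * (ip (pe e) θ * ip (pe e) θ) = f (ip e θ) := by
    intro θ
    rw [← mul_add, hcs, mul_one]
  simp only [f2] at f1
  rw [f1]
  have cW := zero_cont hf
  have cx : Continuous fun θ : Sph 2 => (θ : E 2) 0 := by fun_prop
  have f3 := int2 (cint ((cx.pow 2).mul cW)) (cint ((continuous_const (y := (1 : ℝ))).sub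
    (cx.pow 2) |>.mul cW))
  simp only [Pi.mul_apply, Pi.pow_apply, Pi.sub_apply] at f3
  unfold av
  rw [← f3]
  refine integral_congr_ae (Eventually.of_forall fun θ => ?_)
  simp only
  ring

theorem out {W H K : ℝ → ℝ} (h : Cert W H K) {e : E 2} (he : ‖e‖ = 1) {a : Sph 2 → E 2}
    (ha : Measurable a) (hb : ∀ᵐ θ ∂(sg 2), ‖a θ‖ ≤ 1) :
    cr (∫ θ, ip e θ • a θ ∂(sg 2)) (∫ θ, (ip (pe e) θ * K (ip e θ)) • a θ ∂(sg 2)) +
      cr (∫ θ, (ip e θ * H (ip e θ)) • a θ ∂(sg 2)) (∫ θ, ip (pe e) θ • a θ ∂(sg 2)) ≤ 1 := by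
  have := prob
  obtain ⟨τ, τ', h0, h0', u1, u2, u3, v1, v2, v3⟩ := h.gram
  have hW := comp_cont h.contW he
  have hH := comp_cont h.contH he
  have hK := comp_cont h.contK he
  have hc := ip_cont e
  have hs := ip_cont (pe e)
  have hWp : ∀ θ : Sph 2, 0 < W (ip e θ) := fun θ => h.posW _ (ip_mem he θ)
  have hai : ∀ f : Sph 2 → ℝ, Continuous f → Integrable (fun θ => f θ • a θ) (sg 2) := by
    intro f hf
    obtain ⟨C, hC⟩ := (isCompact_univ (X := Sph 2)).exists_bound_of_continuousOn hf.continuousOn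
    refine Integrable.of_bound (hf.measurable.smul ha).aestronglyMeasurable (|C|) ?_
    filter_upwards [hb] with θ hθ
    rw [norm_smul]
    have h1 := hC θ (mem_univ θ)
    calc ‖f θ‖ * ‖a θ‖ ≤ |C| * 1 :=
          mul_le_mul (h1.trans (le_abs_self _)) hθ (norm_nonneg _) (abs_nonneg _)
      _ = |C| := mul_one _
  obtain ⟨U1, hU1⟩ : ∃ U1, U1 = ∫ θ, ip e θ • a θ ∂(sg 2) := ⟨_, rfl⟩
  obtain ⟨U2, hU2⟩ : ∃ U2, U2 = ∫ θ, (ip e θ * H (ip e θ)) • a θ ∂(sg 2) := ⟨_, rfl⟩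
  obtain ⟨V1, hV1⟩ : ∃ V1, V1 = ∫ θ, (ip (pe e) θ * K (ip e θ)) • a θ ∂(sg 2) := ⟨_, rfl⟩
  obtain ⟨V2, hV2⟩ : ∃ V2, V2 = ∫ θ, ip (pe e) θ • a θ ∂(sg 2) := ⟨_, rfl⟩
  rw [← hU1, ← hU2, ← hV1, ← hV2]
  -- the four multipliers
  obtain ⟨X1, hX1⟩ : ∃ X1 : E 2, X1 = (τ / 2) • U1 := ⟨_, rfl⟩
  obtain ⟨X2, hX2⟩ : ∃ X2 : E 2, X2 = (τ' / 2) • U2 := ⟨_, rfl⟩
  obtain ⟨Y1, hY1⟩ : ∃ Y1 : E 2, Y1 = (2 * τ)⁻¹ • V1 := ⟨_, rfl⟩
  obtain ⟨Y2, hY2⟩ : ∃ Y2 : E 2, Y2 = (2 * τ')⁻¹ • V2 := ⟨_, rfl⟩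
  obtain ⟨m, hm⟩ : ∃ m : Sph 2 → E 2, m = fun θ => ip e θ • X1 + (ip e θ * H (ip e θ)) • X2 +
    (ip (pe e) θ * K (ip e θ)) • Y1 + ip (pe e) θ • Y2 := ⟨_, rfl⟩
  have hpt : ∀ᵐ θ ∂(sg 2), 2 * inner ℝ (a θ) (m θ) ≤ (W (ip e θ))⁻¹ + W (ip e θ) * ‖m θ‖ ^ 2 := by
    filter_upwards [hb] with θ hθ
    have hw := hWp θ
    have h1 : inner ℝ (a θ) (m θ) ≤ ‖m θ‖ := by
      refine (real_inner_le_norm _ _).trans ?_
      exact mul_le_of_le_one_left (norm_nonneg _) hθ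
    have h2 : 2 * ‖m θ‖ ≤ (W (ip e θ))⁻¹ + W (ip e θ) * ‖m θ‖ ^ 2 := by
      have h3 : (W (ip e θ))⁻¹ + W (ip e θ) * ‖m θ‖ ^ 2 - 2 * ‖m θ‖ =
          W (ip e θ) * (‖m θ‖ - (W (ip e θ))⁻¹) ^ 2 := by
        field_simp
        ring
      have h4 : 0 ≤ W (ip e θ) * (‖m θ‖ - (W (ip e θ))⁻¹) ^ 2 := by positivity
      linarith
    linarith
  have hmc : Continuous m := by
    rw [hm]
    exact (((hc.smul continuous_const).add ((hc.mul hH).smul continuous_const)).add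
      ((hs.mul hK).smul continuous_const)).add (hs.smul continuous_const)
  have hmi : Integrable (fun θ => W (ip e θ) * ‖m θ‖ ^ 2) (sg 2) :=
    cint (hW.mul (hmc.norm.pow 2))
  have hwi : Integrable (fun θ => (W (ip e θ))⁻¹) (sg 2) := by
    refine cint (Continuous.inv₀ hW fun θ => (hWp θ).ne')
  have i1 := hai (fun θ => ip e θ) hc
  have i2 := hai (fun θ => ip e θ * H (ip e θ)) (hc.mul hH)
  have i3 := hai (fun θ => ip (pe e) θ * K (ip e θ)) (hs.mul hK)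
  have i4 := hai (fun θ => ip (pe e) θ) hs
  have hexp : ∀ θ, 2 * inner ℝ (a θ) (m θ) = 2 * (inner ℝ X1 (ip e θ • a θ) +
      inner ℝ X2 ((ip e θ * H (ip e θ)) • a θ) + inner ℝ Y1 ((ip (pe e) θ * K (ip e θ)) • a θ) +
      inner ℝ Y2 (ip (pe e) θ • a θ)) := by
    intro θ
    rw [hm]
    simp only [inner_add_right, inner_smul_right]
    rw [real_inner_comm X1, real_inner_comm X2, real_inner_comm Y1, real_inner_comm Y2]
  have j1 := i1.const_inner (𝕜 := ℝ) X1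
  have j2 := i2.const_inner (𝕜 := ℝ) X2
  have j3 := i3.const_inner (𝕜 := ℝ) Y1
  have j4 := i4.const_inner (𝕜 := ℝ) Y2
  have hL : ∫ θ, 2 * inner ℝ (a θ) (m θ) ∂(sg 2) =
      2 * (inner ℝ X1 U1 + inner ℝ X2 U2 + inner ℝ Y1 V1 + inner ℝ Y2 V2) := by
    simp only [hexp]
    rw [integral_const_mul, int4 j1 j2 j3 j4, integral_inner i1, integral_inner i2,
      integral_inner i3, integral_inner i4, hU1, hU2, hV1, hV2]
  have hLi : Integrable (fun θ => 2 * inner ℝ (a θ) (m θ)) (sg 2) := by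
    simp only [hexp]
    exact (add4 j1 j2 j3 j4).const_mul 2
  have hmono := integral_mono_ae hLi (hwi.add hmi) hpt
  have hsplit : ∫ θ, ((fun θ => (W (ip e θ))⁻¹) + fun θ => W (ip e θ) * ‖m θ‖ ^ 2) θ ∂(sg 2) =
      (∫ θ, (W (ip e θ))⁻¹ ∂(sg 2)) + ∫ θ, W (ip e θ) * ‖m θ‖ ^ 2 ∂(sg 2) :=
    integral_add hwi hmi
  have hmass : ∫ θ, (W (ip e θ))⁻¹ ∂(sg 2) ≤ 1 := by
    have c0 : ContinuousOn (fun x => (W x)⁻¹) (Icc (-1) 1) :=
      h.contW.inv₀ fun x hx => (h.posW x hx).ne'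
    rw [av_ip c0 he]
    exact h.mass
  -- the integral of the square
  have hsq : ∫ θ, W (ip e θ) * ‖m θ‖ ^ 2 ∂(sg 2) =
      (av (fun x => x ^ 2 * W x) * ‖X1‖ ^ 2 +
        2 * av (fun x => x ^ 2 * (H x * W x)) * inner ℝ X1 X2 +
        av (fun x => x ^ 2 * (H x ^ 2 * W x)) * ‖X2‖ ^ 2) +
      (av (fun x => (1 - x ^ 2) * (K x ^ 2 * W x)) * ‖Y1‖ ^ 2 +
        2 * av (fun x => (1 - x ^ 2) * (K x * W x)) * inner ℝ Y1 Y2 +
        av (fun x => (1 - x ^ 2) * W x) * ‖Y2‖ ^ 2) := by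
    have cHW : ContinuousOn (fun x => H x * W x) (Icc (-1) 1) := h.contH.mul h.contW
    have cHHW : ContinuousOn (fun x => H x ^ 2 * W x) (Icc (-1) 1) := (h.contH.pow 2).mul h.contW
    have cKW : ContinuousOn (fun x => K x * W x) (Icc (-1) 1) := h.contK.mul h.contW
    have cKKW : ContinuousOn (fun x => K x ^ 2 * W x) (Icc (-1) 1) := (h.contK.pow 2).mul h.contW
    have cX : ContinuousOn (fun x => W x * (2 * K x * inner ℝ X1 Y1 + 2 * inner ℝ X1 Y2 +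
        2 * H x * K x * inner ℝ X2 Y1 + 2 * H x * inner ℝ X2 Y2)) (Icc (-1) 1) := by
      refine h.contW.mul ?_
      exact ((((continuousOn_const.mul h.contK).mul continuousOn_const).add
        continuousOn_const).add (((continuousOn_const.mul h.contH).mul h.contK).mul
        continuousOn_const)).add ((continuousOn_const.mul h.contH).mul continuousOn_const)
    have g1 := gram_cc h.contW he
    have g2 := gram_cc cHW he
    have g3 := gram_cc cHHW he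
    have g4 := gram_ss cKKW he
    have g5 := gram_ss cKW he
    have g6 := gram_ss h.contW he
    have g7 := gram_cs cX he
    have k1 : Integrable (fun θ : Sph 2 => W (ip e θ) * (ip e θ * ip e θ)) (sg 2) :=
      cint (hW.mul (hc.mul hc))
    have k2 : Integrable (fun θ : Sph 2 => (H (ip e θ) * W (ip e θ)) * (ip e θ * ip e θ)) (sg 2) :=
      cint ((hH.mul hW).mul (hc.mul hc))
    have k3 : Integrable (fun θ : Sph 2 => (H (ip e θ) ^ 2 * W (ip e θ)) * (ip e θ * ip e θ))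
      (sg 2) := cint (((hH.pow 2).mul hW).mul (hc.mul hc))
    have k4 : Integrable (fun θ : Sph 2 => (K (ip e θ) ^ 2 * W (ip e θ)) *
      (ip (pe e) θ * ip (pe e) θ)) (sg 2) := cint (((hK.pow 2).mul hW).mul (hs.mul hs))
    have k5 : Integrable (fun θ : Sph 2 => (K (ip e θ) * W (ip e θ)) *
      (ip (pe e) θ * ip (pe e) θ)) (sg 2) := cint ((hK.mul hW).mul (hs.mul hs))
    have k6 : Integrable (fun θ : Sph 2 => W (ip e θ) * (ip (pe e) θ * ip (pe e) θ)) (sg 2) :=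
      cint (hW.mul (hs.mul hs))
    have k7 : Integrable (fun θ : Sph 2 => (W (ip e θ) * (2 * K (ip e θ) * inner ℝ X1 Y1 +
        2 * inner ℝ X1 Y2 + 2 * H (ip e θ) * K (ip e θ) * inner ℝ X2 Y1 +
        2 * H (ip e θ) * inner ℝ X2 Y2)) * (ip e θ * ip (pe e) θ)) (sg 2) :=
      cint ((comp_cont cX he).mul (hc.mul hs))
    have hpoint : ∀ θ : Sph 2, W (ip e θ) * ‖m θ‖ ^ 2 =
        ((W (ip e θ) * (ip e θ * ip e θ)) * ‖X1‖ ^ 2 +
          ((H (ip e θ) * W (ip e θ)) * (ip e θ * ip e θ)) * (2 * inner ℝ X1 X2) +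
          ((H (ip e θ) ^ 2 * W (ip e θ)) * (ip e θ * ip e θ)) * ‖X2‖ ^ 2 +
          ((K (ip e θ) ^ 2 * W (ip e θ)) * (ip (pe e) θ * ip (pe e) θ)) * ‖Y1‖ ^ 2) +
        ((K (ip e θ) * W (ip e θ)) * (ip (pe e) θ * ip (pe e) θ)) * (2 * inner ℝ Y1 Y2) +
        (W (ip e θ) * (ip (pe e) θ * ip (pe e) θ)) * ‖Y2‖ ^ 2 +
        (W (ip e θ) * (2 * K (ip e θ) * inner ℝ X1 Y1 +
          2 * inner ℝ X1 Y2 + 2 * H (ip e θ) * K (ip e θ) * inner ℝ X2 Y1 +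
          2 * H (ip e θ) * inner ℝ X2 Y2)) * (ip e θ * ip (pe e) θ) := by
      intro θ
      rw [hm]
      simp only [norm2, inner2, PiLp.add_apply, PiLp.smul_apply, smul_eq_mul]
      ring
    simp only [hpoint]
    rw [int4 (add4 (k1.mul_const _) (k2.mul_const _) (k3.mul_const _) (k4.mul_const _))
      (k5.mul_const _) (k6.mul_const _) k7,
      int4 (k1.mul_const _) (k2.mul_const _) (k3.mul_const _) (k4.mul_const _)]
    simp only [integral_mul_const]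
    rw [g1, g2, g3, g4, g5, g6, g7]
    ring
  have hfin : 2 * (inner ℝ X1 U1 + inner ℝ X2 U2 + inner ℝ Y1 V1 + inner ℝ Y2 V2) ≤
      1 + ((av (fun x => x ^ 2 * W x) * ‖X1‖ ^ 2 +
        2 * av (fun x => x ^ 2 * (H x * W x)) * inner ℝ X1 X2 +
        av (fun x => x ^ 2 * (H x ^ 2 * W x)) * ‖X2‖ ^ 2) +
      (av (fun x => (1 - x ^ 2) * (K x ^ 2 * W x)) * ‖Y1‖ ^ 2 +
        2 * av (fun x => (1 - x ^ 2) * (K x * W x)) * inner ℝ Y1 Y2 +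
        av (fun x => (1 - x ^ 2) * W x) * ‖Y2‖ ^ 2)) := by
    rw [← hL, ← hsq]
    refine hmono.trans ?_
    refine (le_of_eq hsplit).trans ?_
    linarith
  have p1 := psd X1 X2 (sub_nonneg.2 u1) (sub_nonneg.2 u2) u3
  have p2 := psd Y1 Y2 (sub_nonneg.2 v1) (sub_nonneg.2 v2) v3
  have n1 : ‖X1‖ ^ 2 = (τ / 2) ^ 2 * ‖U1‖ ^ 2 := by
    rw [hX1, norm_smul, mul_pow, Real.norm_eq_abs, sq_abs]
  have n2 : ‖X2‖ ^ 2 = (τ' / 2) ^ 2 * ‖U2‖ ^ 2 := by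
    rw [hX2, norm_smul, mul_pow, Real.norm_eq_abs, sq_abs]
  have n3 : ‖Y1‖ ^ 2 = ((2 * τ)⁻¹) ^ 2 * ‖V1‖ ^ 2 := by
    rw [hY1, norm_smul, mul_pow, Real.norm_eq_abs, sq_abs]
  have n4 : ‖Y2‖ ^ 2 = ((2 * τ')⁻¹) ^ 2 * ‖V2‖ ^ 2 := by
    rw [hY2, norm_smul, mul_pow, Real.norm_eq_abs, sq_abs]
  have q1 : inner ℝ X1 U1 = τ / 2 * ‖U1‖ ^ 2 := by
    rw [hX1, real_inner_smul_left, real_inner_self_eq_norm_sq]
  have q2 : inner ℝ X2 U2 = τ' / 2 * ‖U2‖ ^ 2 := by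
    rw [hX2, real_inner_smul_left, real_inner_self_eq_norm_sq]
  have q3 : inner ℝ Y1 V1 = (2 * τ)⁻¹ * ‖V1‖ ^ 2 := by
    rw [hY1, real_inner_smul_left, real_inner_self_eq_norm_sq]
  have q4 : inner ℝ Y2 V2 = (2 * τ')⁻¹ * ‖V2‖ ^ 2 := by
    rw [hY2, real_inner_smul_left, real_inner_self_eq_norm_sq]
  rw [q1, q2, q3, q4] at hfin
  have c1 := cr_le U1 V1
  have c2 := cr_le U2 V2
  -- the final inequality
  have w1 : (2 / τ) * ‖X1‖ ^ 2 = τ / 2 * ‖U1‖ ^ 2 := by rw [n1]; field_simp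
  have w2 : (2 / τ') * ‖X2‖ ^ 2 = τ' / 2 * ‖U2‖ ^ 2 := by rw [n2]; field_simp
  have w3 : (2 * τ) * ‖Y1‖ ^ 2 = (2 * τ)⁻¹ * ‖V1‖ ^ 2 := by rw [n3]; field_simp
  have w4 : (2 * τ') * ‖Y2‖ ^ 2 = (2 * τ')⁻¹ * ‖V2‖ ^ 2 := by rw [n4]; field_simp
  have hS : τ / 2 * ‖U1‖ ^ 2 + τ' / 2 * ‖U2‖ ^ 2 + (2 * τ)⁻¹ * ‖V1‖ ^ 2 +
      (2 * τ')⁻¹ * ‖V2‖ ^ 2 ≤ 1 := by
    rw [← w1, ← w2, ← w3, ← w4] at hfin ⊢
    linarith
  have t1 : ‖U1‖ * ‖V1‖ ≤ τ / 2 * ‖U1‖ ^ 2 + (2 * τ)⁻¹ * ‖V1‖ ^ 2 := by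
    have e1 : τ / 2 * ‖U1‖ ^ 2 + (2 * τ)⁻¹ * ‖V1‖ ^ 2 - ‖U1‖ * ‖V1‖ =
        (τ * ‖U1‖ - ‖V1‖) ^ 2 / (2 * τ) := by
      field_simp
      ring
    have e2 : 0 ≤ (τ * ‖U1‖ - ‖V1‖) ^ 2 / (2 * τ) := by positivity
    linarith
  have t2 : ‖U2‖ * ‖V2‖ ≤ τ' / 2 * ‖U2‖ ^ 2 + (2 * τ')⁻¹ * ‖V2‖ ^ 2 := by
    have e1 : τ' / 2 * ‖U2‖ ^ 2 + (2 * τ')⁻¹ * ‖V2‖ ^ 2 - ‖U2‖ * ‖V2‖ =
        (τ' * ‖U2‖ - ‖V2‖) ^ 2 / (2 * τ') := by
      field_simp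
      ring
    have e2 : 0 ≤ (τ' * ‖U2‖ - ‖V2‖) ^ 2 / (2 * τ') := by positivity
    linarith
  linarith

end Pool.Agent.H72.FA
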