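import Pool.Agent.H72.FA.Maps

/-!
# The outer inequality for a general metric (helper72)
-/

set_option autoImplicit false

open MeasureTheory Metric Set Filter Topology InnerProductGeometry Matrix

namespace Pool.Agent.H72.FA

open Pool.Agent.H241R3.FV Pool.Agent.N526.CP Pool.Agent.N979.CP
open Pool.Agent.N979.CP.COMb (exists_root norm_le_one)

/-- the comass of the form with the coefficients `K`, `H` is at most one -/
def OutIneq (K H : ℝ → ℝ) : Prop := ∀ e : E 2, ‖e‖ = 1 → ∀ a : Sph 2 → E 2, Measurable a →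
  (∀ᵐ θ ∂(sg 2), ‖a θ‖ ≤ 1) →
  cr (∫ θ, ip e θ • a θ ∂(sg 2)) (∫ θ, (ip (pe e) θ * K (ip e θ)) • a θ ∂(sg 2)) +
    cr (∫ θ, (ip e θ * H (ip e θ)) • a θ ∂(sg 2)) (∫ θ, ip (pe e) θ • a θ ∂(sg 2)) ≤ 1

theorem act_zero (A : Matrix (Fin 2) (Fin 2) ℝ) (v : E 2) :
    act A v 0 = A 0 0 * v 0 + A 0 1 * v 1 := by
  simp [act, Fin.sum_univ_two]

theorem act_one (A : Matrix (Fin 2) (Fin 2) ℝ) (v : E 2) :
    act A v 1 = A 1 0 * v 0 + A 1 1 * v 1 := by
  simp [act, Fin.sum_univ_two]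

theorem cr_act (A : Matrix (Fin 2) (Fin 2) ℝ) (u v : E 2) :
    cr (act A u) (act A v) = A.det * cr u v := by
  unfold cr
  rw [act_zero, act_zero, act_one, act_one, Matrix.det_fin_two]
  ring

theorem int_comp {f : Sph 2 → E 2} (hf : Integrable f (sg 2)) (i : Fin 2) :
    (∫ θ, f θ ∂(sg 2)) i = ∫ θ, f θ i ∂(sg 2) :=
  ((EuclideanSpace.proj i : E 2 →L[ℝ] ℝ).integral_comp_comm hf).symm

theorem comp_int {f : Sph 2 → E 2} (hf : Integrable f (sg 2)) (i : Fin 2) :
    Integrable (fun θ => f θ i) (sg 2) :=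
  (EuclideanSpace.proj i : E 2 →L[ℝ] ℝ).integrable_comp hf

theorem act_int (A : Matrix (Fin 2) (Fin 2) ℝ) {f : Sph 2 → E 2} (hf : Integrable f (sg 2)) :
    (∫ θ, act A (f θ) ∂(sg 2)) = act A (∫ θ, f θ ∂(sg 2)) := by
  have hA : Integrable (fun θ => act A (f θ)) (sg 2) := by
    have h1 : (fun θ => act A (f θ)) = fun θ => cl A (f θ) := by
      funext θ
      ext i
      rw [PTWb.cl_apply]
      simp [act]
    rw [h1]
    exact (cl A).integrable_comp hf
  have h0 := comp_int hf 0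
  have h1 := comp_int hf 1
  ext i
  rw [int_comp hA]
  fin_cases i
  · simp only [Fin.zero_eta, act_zero]
    rw [int2 (h0.const_mul _) (h1.const_mul _), integral_const_mul, integral_const_mul,
      int_comp hf, int_comp hf]
  · simp only [Fin.mk_one, act_one]
    rw [int2 (h0.const_mul _) (h1.const_mul _), integral_const_mul, integral_const_mul,
      int_comp hf, int_comp hf]

/-- boundedness of the gradients -/
theorem bdd_of {G : Matrix (Fin 2) (Fin 2) ℝ} {α : Sph 2 → E 2}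
    (hb : ∀ᵐ θ ∂(sg 2), ∀ v, |inner ℝ (α θ) v| ≤ gnorm G v) :
    ∃ C : ℝ, 0 ≤ C ∧ ∀ᵐ θ ∂(sg 2), ‖α θ‖ ≤ C := by
  refine ⟨√(∑ i, ∑ j, |G i j|), Real.sqrt_nonneg _, ?_⟩
  filter_upwards [hb] with θ hθ
  have h1 := (hθ (α θ)).trans (gnorm_le G (α θ))
  rw [real_inner_self_eq_norm_sq, abs_of_nonneg (by positivity)] at h1
  by_contra h2
  push Not at h2
  have h3 : 0 < ‖α θ‖ := lt_of_le_of_lt (Real.sqrt_nonneg _) h2
  nlinarith

theorem smul_int {α : Sph 2 → E 2} (hα : Measurable α) {C : ℝ}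
    (hC : ∀ᵐ θ ∂(sg 2), ‖α θ‖ ≤ C) {f : Sph 2 → ℝ} (hf : Continuous f) :
    Integrable (fun θ => f θ • α θ) (sg 2) := by
  have := prob
  obtain ⟨D, hD⟩ := (isCompact_univ (X := Sph 2)).exists_bound_of_continuousOn hf.continuousOn
  refine Integrable.of_bound (hf.measurable.smul hα).aestronglyMeasurable (|D| * |C|) ?_
  filter_upwards [hC] with θ hθ
  rw [norm_smul]
  exact mul_le_mul ((hD θ (mem_univ θ)).trans (le_abs_self _)) (hθ.trans (le_abs_self _))
    (norm_nonneg _) (abs_nonneg _)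

theorem outG {K H : ℝ → ℝ} (hK : ContinuousOn K (Icc (-1) 1)) (hH : ContinuousOn H (Icc (-1) 1))
    (h : OutIneq K H) {e : E 2} (he : ‖e‖ = 1) {G : Matrix (Fin 2) (Fin 2) ℝ} (hG : G.PosDef)
    {α : Sph 2 → E 2} (hα : Measurable α)
    (hb : ∀ᵐ θ ∂(sg 2), ∀ v, |inner ℝ (α θ) v| ≤ gnorm G v) :
    cr (∫ θ, ip e θ • α θ ∂(sg 2)) (∫ θ, (ip (pe e) θ * K (ip e θ)) • α θ ∂(sg 2)) +
      cr (∫ θ, (ip e θ * H (ip e θ)) • α θ ∂(sg 2)) (∫ θ, ip (pe e) θ • α θ ∂(sg 2)) ≤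
      √G.det := by
  obtain ⟨A, hA, hdet, hdet'⟩ := exists_root G hG
  obtain ⟨C, -, hC⟩ := bdd_of hb
  have hcont : Continuous (fun v : E 2 => act Aᵀ v) := by
    unfold act
    fun_prop
  have hc := ip_cont e
  have hs := ip_cont (pe e)
  have hKc := comp_cont hK he
  have hHc := comp_cont hH he
  have h1 := h e he (fun θ => act Aᵀ (α θ)) (hcont.measurable.comp hα) (by
    filter_upwards [hb] with θ hθ
    exact norm_le_one G A hA (α θ) hθ)
  have hsm : ∀ (r : ℝ) (v : E 2), r • act Aᵀ v = act Aᵀ (r • v) := by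
    intro r v
    ext i
    fin_cases i
    · simp only [Fin.zero_eta, PiLp.smul_apply, act_zero, smul_eq_mul]
      ring
    · simp only [Fin.mk_one, PiLp.smul_apply, act_one, smul_eq_mul]
      ring
  simp only [hsm] at h1
  have i3 : Integrable (fun θ => (ip (pe e) θ * K (ip e θ)) • α θ) (sg 2) :=
    smul_int hα hC (hs.mul hKc)
  have i4 : Integrable (fun θ => (ip e θ * H (ip e θ)) • α θ) (sg 2) :=
    smul_int hα hC (hc.mul hHc)
  rw [act_int _ (smul_int hα hC hc), act_int _ (smul_int hα hC hs), act_int _ i3, act_int _ i4,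
    cr_act, cr_act, Matrix.det_transpose, ← mul_add] at h1
  have h3 : √G.det = (A.det)⁻¹ := by
    field_simp
    rw [mul_comm]
    exact hdet'
  rw [h3, ← one_div, le_div_iff₀ hdet, mul_comm]
  exact h1

theorem cr_lin {α : Sph 2 → E 2} {f : Sph 2 → ℝ}
    (hf : Integrable (fun θ => f θ • α θ) (sg 2)) (A : E 2) :
    Integrable (fun θ => f θ * cr A (α θ)) (sg 2) ∧
    ∫ θ, f θ * cr A (α θ) ∂(sg 2) = cr A (∫ θ, f θ • α θ ∂(sg 2)) := by
  have h0 := comp_int hf 0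
  have h1 := comp_int hf 1
  have e : ∀ θ, f θ * cr A (α θ) = A 0 * (f θ • α θ) 1 - A 1 * (f θ • α θ) 0 := by
    intro θ
    unfold cr
    simp only [PiLp.smul_apply, smul_eq_mul]
    ring
  simp only [e]
  refine ⟨(h1.const_mul _).sub (h0.const_mul _), ?_⟩
  rw [integral_sub (h1.const_mul _) (h0.const_mul _), integral_const_mul, integral_const_mul]
  unfold cr
  rw [int_comp hf, int_comp hf]

end Pool.Agent.H72.FA
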