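import Pool.Agent.H72.FA.PtOut

/-!
# The calibration inequality at the points of the inner region (helper72)
-/

set_option autoImplicit false

open MeasureTheory Metric Set Filter Topology InnerProductGeometry Matrix Asymptotics

namespace Pool.Agent.H72.FA

open Pool.Agent.H241R3.FV Pool.Agent.N526.CP Pool.Agent.N979.CP

theorem N_le {r : ℝ} (hr : 0 < r) (Y : E 2) : ‖Y - pj r Y‖ ≤ |‖Y‖ - r| := by
  rcases le_total ‖Y‖ r with h | h
  · rw [pj_in hr h, sub_self, norm_zero]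
    exact abs_nonneg _
  · have hpos : 0 < ‖Y‖ := hr.trans_le h
    unfold pj
    rw [eh_out h, smul_smul]
    have e1 : Y - (r * ‖Y‖⁻¹) • Y = ((‖Y‖ - r) * ‖Y‖⁻¹) • Y := by
      rw [sub_mul, mul_inv_cancel₀ hpos.ne', sub_smul, one_smul]
    rw [e1, norm_smul, norm_mul, norm_inv, norm_norm, mul_assoc, inv_mul_cancel₀ hpos.ne',
      mul_one, Real.norm_eq_abs]

theorem zero_der {F : Type} [NormedAddCommGroup F] [NormedSpace ℝ F] {f : E 2 → F} {p : E 2}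
    (h0 : f p = 0) {u : E 2 → ℝ} {C : ℝ} (hu : HasFDerivAt u (0 : E 2 →L[ℝ] ℝ) p)
    (hb : ∀ᶠ y in 𝓝 p, ‖f y‖ ≤ C * |u y - u p|) : HasFDerivAt f (0 : E 2 →L[ℝ] F) p := by
  rw [hasFDerivAt_iff_isLittleO]
  rw [hasFDerivAt_iff_isLittleO] at hu
  simp only [_root_.zero_apply, sub_zero] at hu ⊢
  rw [h0]
  simp only [sub_zero]
  refine IsBigO.trans_isLittleO ?_ hu
  refine IsBigO.of_bound C ?_
  filter_upwards [hb] with y hy
  rw [Real.norm_eq_abs]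
  exact hy

theorem N_der {Y : E 2 → E 2} {p : E 2} {R0 R1 : E 2} {r : ℝ} (hr : 0 < r)
    (h0 : HasFDerivAt (fun y => Y y 0) (innerSL ℝ R0) p)
    (h1 : HasFDerivAt (fun y => Y y 1) (innerSL ℝ R1) p) (hc : ContinuousAt Y p)
    (hle : ‖Y p‖ ≤ r)
    (hlev : ‖Y p‖ = r → ∀ T : E 2 →L[ℝ] ℝ, HasFDerivAt (fun y => ‖Y y‖) T p → T = 0) :
    ∃ u : E 2 → ℝ, HasFDerivAt u (0 : E 2 →L[ℝ] ℝ) p ∧
      ∀ᶠ y in 𝓝 p, ‖Y y - pj r (Y y)‖ ≤ 1 * |u y - u p| := by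
  rcases hle.lt_or_eq with h | h
  · refine ⟨fun _ => 0, hasFDerivAt_const _ _, ?_⟩
    filter_upwards [hc.norm.eventually (gt_mem_nhds h)] with y hy
    rw [pj_in hr hy.le, sub_self, norm_zero]
    simp
  · have hn : Y p ≠ 0 := by
      rw [← norm_pos_iff, h]
      exact hr
    have h2 := polar hn h0 h1
    have h3 := hlev h _ h2
    rw [h3] at h2
    refine ⟨fun y => ‖Y y‖, h2, Eventually.of_forall fun y => ?_⟩
    rw [one_mul]
    show _ ≤ |‖Y y‖ - ‖Y p‖|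
    rw [h]
    exact N_le hr (Y y)

theorem eh_norm {r : ℝ} (hr : 0 < r) (Y : E 2) : ‖eh r Y‖ ≤ 1 := by
  unfold eh
  have h1 : 0 < max r ‖Y‖ := lt_of_lt_of_le hr (le_max_left _ _)
  rw [norm_smul, norm_inv, Real.norm_eq_abs, abs_of_pos h1, inv_mul_le_iff₀ h1, mul_one]
  exact le_max_right _ _

theorem eh_ip {r : ℝ} (hr : 0 < r) (Y : E 2) (θ : Sph 2) : ip (eh r Y) θ ∈ Icc (-1 : ℝ) 1 :=
  abs_le.1 ((CAPV.ip_abs _ θ).trans (eh_norm hr Y))

theorem orth_norm (θ : Sph 2) (v : E 2) : ‖orth θ v‖ ≤ 2 * ‖v‖ := by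
  unfold orth
  refine (norm_sub_le _ _).trans ?_
  rw [norm_smul, norm_sph, mul_one, Real.norm_eq_abs]
  have := CAPV.ip_abs v θ
  linarith

/-- the inequality in the inner region -/
theorem pt_in {M : Type} [MetricSpace M] {s b : ℝ} {K L : ℝ → ℝ} (hA : Adm s b K L)
    {g : Sph 2 → M → ℝ} {mp : E 2 → M} {G : Matrix (Fin 2) (Fin 2) ℝ} {p : E 2} {α : Sph 2 → E 2}
    (h : Pt g mp G p α) (hle : ‖Yf g (mp p)‖ ≤ zf 1 s)
    (hlev : ‖Yf g (mp p)‖ = zf 1 s →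
      ∀ T : E 2 →L[ℝ] ℝ, HasFDerivAt (fun y => ‖Yf g (mp y)‖) T p → T = 0) :
    2 * ∫ θ, (fderiv ℝ (Fm s K g θ ∘ mp) p).det ∂(sg 2) -
      (fderiv ℝ (Hf ∘ Xh s g ∘ mp) p).det +
      b * ((fderiv ℝ (Yf g ∘ mp) p).det -
        (fderiv ℝ ((fun q => pj (zf 1 s) (Yf g q)) ∘ mp) p).det) ≤ √G.det := by
  have hr := zf_pos hA.s0 hA.s1.le
  have h0 := h.derRow 0
  have h1 := h.derRow 1
  obtain ⟨u, hu, hub⟩ := N_der (Y := Yf g ∘ mp) hr h0 h1 h.derY.continuousAt hle hlev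
  have hN0 : Yf g (mp p) - pj (zf 1 s) (Yf g (mp p)) = 0 := by
    rw [pj_in hr hle, sub_self]
  have dN : HasFDerivAt (fun y => Yf g (mp y) - pj (zf 1 s) (Yf g (mp y)))
      (0 : E 2 →L[ℝ] E 2) p := zero_der hN0 hu hub
  have dP : HasFDerivAt ((fun q => pj (zf 1 s) (Yf g q)) ∘ mp)
      (cl (Mx (sg 2) (fun θ : Sph 2 => (θ : E 2)) α)) p := by
    have h2 := h.derY.sub dN
    rw [sub_zero] at h2
    have e : ((fun q => pj (zf 1 s) (Yf g q)) ∘ mp) =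
        (Yf g ∘ mp - fun y => Yf g (mp y) - pj (zf 1 s) (Yf g (mp y))) := by
      funext y
      simp
    rw [e]
    exact h2
  obtain ⟨X, hX⟩ : ∃ X, X = Xh s g (mp p) := ⟨_, rfl⟩
  have hX1 : X = Ri (Yf g (mp p)) := by
    rw [hX]
    unfold Xh
    rw [pj_in hr hle]
  obtain ⟨hXs, hXZ⟩ := (Fin.inv 1 le_rfl).2.1 s hA.s0 hA.s1 _ hle
  rw [← hX1] at hXs hXZ
  have hXlt : ‖X‖ < 1 := hXs.trans_lt hA.s1
  have dR := (Fin.der 1 le_rfl X hXlt).2.2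
  rw [hXZ] at dR
  have hPp : pj (zf 1 s) (Yf g (mp p)) = Yf g (mp p) := pj_in hr hle
  have dX : HasFDerivAt (Xh s g ∘ mp) (cl (Lm X α)) p := by
    have h3 : HasFDerivAt (Ri : E 2 → E 2) (cl (DZ X)⁻¹)
        (((fun q => pj (zf 1 s) (Yf g q)) ∘ mp) p) := by
      simp only [Function.comp_apply]
      rw [hPp]
      exact dR
    have h4 := h3.comp p dP
    rw [PTWb.cl_mul] at h4
    exact h4
  -- the second term
  have hKb : ∃ C : ℝ, ∀ x ∈ Icc (-1 : ℝ) 1, ‖K x‖ ≤ C :=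
    isCompact_Icc.exists_bound_of_continuousOn hA.contK
  obtain ⟨C, hC⟩ := hKb
  have dB : ∀ θ : Sph 2, HasFDerivAt (fun y => Bt s K θ (Yf g (mp y))) (0 : E 2 →L[ℝ] E 2) p := by
    intro θ
    refine zero_der (C := |C|) ?_ hu ?_
    · unfold Bt orth
      rw [hN0]
      unfold ip
      simp
    · filter_upwards [hub] with y hy
      unfold Bt
      rw [norm_smul, norm_mul]
      have e1 := hC _ (eh_ip hr (Yf g (mp y)) θ)
      have e2 := orth_norm θ (Yf g (mp y) - pj (zf 1 s) (Yf g (mp y)))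
      have e3 : ‖(1 / 2 : ℝ)‖ = 1 / 2 := by norm_num
      rw [e3]
      rw [one_mul] at hy
      calc 1 / 2 * ‖K (ip (eh (zf 1 s) (Yf g (mp y))) θ)‖ *
            ‖orth θ (Yf g (mp y) - pj (zf 1 s) (Yf g (mp y)))‖ ≤
            1 / 2 * |C| * (2 * ‖Yf g (mp y) - pj (zf 1 s) (Yf g (mp y))‖) := by
            refine mul_le_mul ?_ e2 (norm_nonneg _) (by positivity)
            exact mul_le_mul_of_nonneg_left (e1.trans (le_abs_self _)) (by norm_num)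
        _ = |C| * ‖Yf g (mp y) - pj (zf 1 s) (Yf g (mp y))‖ := by ring
        _ ≤ |C| * |u y - u p| := mul_le_mul_of_nonneg_left hy (abs_nonneg _)
  have com := Fin.comb 1 le_rfl s hA.good X hXs α h.meas G h.pos h.bd
  have hint : ∫ θ, (fderiv ℝ (Fm s K g θ ∘ mp) p).det ∂(sg 2) =
      ∫ θ, (Vm X θ * Lm X α +
        vecMulVec (fun i => (θ : E 2) i) (fun i => α θ i)).det ∂(sg 2) := by
    apply integral_congr_ae
    filter_upwards [h.der] with θ hθ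
    have hU := (Fin.uder 1 le_rfl X hXlt).1 θ
    rw [hX] at hU
    have h1 : HasFDerivAt (Uf θ ∘ (Xh s g ∘ mp)) ((cl (Vm (Xh s g (mp p)) θ)).comp
        (cl (Lm X α))) p := HasFDerivAt.comp p hU dX
    have h2 : HasFDerivAt (fun y => (g θ ∘ mp) y • (θ : E 2))
        ((innerSL ℝ (α θ)).smulRight (θ : E 2)) p := hθ.smul_const _
    have h3 : HasFDerivAt (Fm s K g θ ∘ mp) ((cl (Vm (Xh s g (mp p)) θ)).comp
        (cl (Lm X α)) + 0 + (innerSL ℝ (α θ)).smulRight (θ : E 2)) p := (h1.add (dB θ)).add h2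
    rw [h3.fderiv, ← hX, add_zero, PTWb.cl_mul, PTWb.cl_smulRight, PTWb.cl_add, PTWb.det_cl]
  obtain ⟨T, hT, hTdet⟩ := (Fin.uder 1 le_rfl X hXlt).2
  have h4 : HasFDerivAt (Hf ∘ Xh s g ∘ mp) (T.comp (cl (Lm X α))) p := by
    rw [hX] at hT
    exact HasFDerivAt.comp p hT dX
  rw [hint, h4.fderiv, PTWb.det_comp, PTWb.det_cl, hTdet, mul_comm (√(1 - ‖X‖ ^ 2))⁻¹,
    dP.fderiv, h.derY.fderiv, sub_self, mul_zero, add_zero]
  norm_num at com
  exact sub_le_iff_le_add.2 com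

end Pool.Agent.H72.FA
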