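import Pool.Agent.H72.FA.Lev

/-!
# The calibration inequality at the points of the outer region (helper72)
-/

set_option autoImplicit false

open MeasureTheory Metric Set Filter Topology InnerProductGeometry Matrix

namespace Pool.Agent.H72.FA

open Pool.Agent.H241R3.FV Pool.Agent.N526.CP Pool.Agent.N979.CP

/-- the admissible data -/
structure Adm (s b : ℝ) (K L : ℝ → ℝ) : Prop where
  s0 : 0 < s
  s1 : s < 1
  good : Good2 1 s
  der : ∀ x ∈ Icc (-1 : ℝ) 1, HasDerivAt K (x * L x) x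
  contL : ContinuousOn L (Icc (-1) 1)
  meas : Measurable K
  out : ∀ ρ, zf 1 s < ρ → ρ ≤ 2 / Real.pi → OutIneq K (Hr s b K L ρ)

theorem Adm.contK {s b : ℝ} {K L : ℝ → ℝ} (h : Adm s b K L) : ContinuousOn K (Icc (-1) 1) :=
  fun x hx => (h.der x hx).continuousAt.continuousWithinAt

theorem Adm.contH {s b : ℝ} {K L : ℝ → ℝ} (h : Adm s b K L) (ρ : ℝ) :
    ContinuousOn (Hr s b K L ρ) (Icc (-1) 1) := by
  have hq : ContinuousOn (fun x => (√(1 - (s * x) ^ 2))⁻¹) (Icc (-1) 1) := by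
    refine ContinuousOn.inv₀ (by fun_prop) fun x hx => ?_
    refine (Real.sqrt_pos.2 ?_).ne'
    have h1 := h.s0
    have h2 := h.s1
    have h3 : x ^ 2 ≤ 1 := by
      have := hx.1
      have := hx.2
      nlinarith
    have h4 : s ^ 2 * x ^ 2 ≤ s ^ 2 * 1 := mul_le_mul_of_nonneg_left h3 (sq_nonneg s)
    rw [mul_pow]
    nlinarith
  have hK := h.contK
  have hL := h.contL
  unfold Hr
  exact ((continuousOn_const.mul (hq.pow 3)).add (continuousOn_const.mul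
    (hK.sub ((continuousOn_const.sub (continuousOn_id.pow 2)).mul hL)))).add continuousOn_const

/-- the data at a point of a chart -/
structure Pt {M : Type} (g : Sph 2 → M → ℝ) (mp : E 2 → M) (G : Matrix (Fin 2) (Fin 2) ℝ)
    (p : E 2) (α : Sph 2 → E 2) : Prop where
  pos : G.PosDef
  meas : Measurable α
  der : ∀ᵐ θ ∂(sg 2), HasFDerivAt (g θ ∘ mp) (innerSL ℝ (α θ)) p
  bd : ∀ᵐ θ ∂(sg 2), ∀ v, |inner ℝ (α θ) v| ≤ gnorm G v
  derY : HasFDerivAt (Yf g ∘ mp) (cl (Mx (sg 2) (fun θ : Sph 2 => (θ : E 2)) α)) p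

theorem coord_cont (i : Fin 2) : Continuous fun θ : Sph 2 => (θ : E 2) i := by fun_prop

/-- the rows of the derivative of `Y` -/
noncomputable def Rw (α : Sph 2 → E 2) (i : Fin 2) : E 2 := ∫ θ : Sph 2, (θ : E 2) i • α θ ∂(sg 2)

section

variable {M : Type} {g : Sph 2 → M → ℝ} {mp : E 2 → M} {G : Matrix (Fin 2) (Fin 2) ℝ}
  {p : E 2} {α : Sph 2 → E 2}

theorem Pt.int (h : Pt g mp G p α) {f : Sph 2 → ℝ} (hf : Continuous f) :
    Integrable (fun θ => f θ • α θ) (sg 2) := by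
  obtain ⟨C, -, hC⟩ := bdd_of h.bd
  exact smul_int h.meas hC hf

theorem Pt.Mx_eq (h : Pt g mp G p α) (i j : Fin 2) :
    Mx (sg 2) (fun θ : Sph 2 => (θ : E 2)) α i j = Rw α i j := by
  unfold Mx Rw
  rw [int_comp (h.int (coord_cont i))]
  rfl

theorem Pt.derRow (h : Pt g mp G p α) (i : Fin 2) :
    HasFDerivAt (fun y => (Yf g ∘ mp) y i) (innerSL ℝ (Rw α i)) p := by
  have h1 := ((EuclideanSpace.proj i : E 2 →L[ℝ] ℝ).hasFDerivAt).comp p h.derY
  refine h1.congr_fderiv ?_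
  ext v
  rw [ContinuousLinearMap.comp_apply, innerSL_apply_apply, inner2]
  change (cl (Mx (sg 2) (fun θ : Sph 2 => (θ : E 2)) α) v) i = _
  rw [PTWb.cl_apply, Fin.sum_univ_two, h.Mx_eq, h.Mx_eq]

theorem Pt.detY (h : Pt g mp G p α) :
    (fderiv ℝ (Yf g ∘ mp) p).det = cr (Rw α 0) (Rw α 1) := by
  rw [h.derY.fderiv, PTWb.det_cl, Matrix.det_fin_two, h.Mx_eq, h.Mx_eq, h.Mx_eq, h.Mx_eq]
  unfold cr
  ring

theorem Pt.comb (h : Pt g mp G p α) (e : E 2) :
    ∫ θ, ip e θ • α θ ∂(sg 2) = e 0 • Rw α 0 + e 1 • Rw α 1 := by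
  unfold Rw
  have h0 := h.int (coord_cont 0)
  have h1 := h.int (coord_cont 1)
  have h2 := integral_add (h0.smul (e 0)) (h1.smul (e 1))
  simp only [Pi.smul_apply] at h2
  rw [← integral_smul, ← integral_smul, ← h2]
  refine integral_congr_ae (Eventually.of_forall fun θ => ?_)
  simp only
  unfold ip
  rw [inner2, add_smul, smul_smul, smul_smul]

end

/-- the inequality in the outer region -/
theorem pt_out {M : Type} [MetricSpace M] {s b : ℝ} {K L : ℝ → ℝ} (hA : Adm s b K L)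
    {g : Sph 2 → M → ℝ} {mp : E 2 → M} {G : Matrix (Fin 2) (Fin 2) ℝ} {p : E 2} {α : Sph 2 → E 2}
    (h : Pt g mp G p α) (ho : zf 1 s < ‖Yf g (mp p)‖) (hle : ‖Yf g (mp p)‖ ≤ 2 / Real.pi) :
    2 * ∫ θ, (fderiv ℝ (Fm s K g θ ∘ mp) p).det ∂(sg 2) -
      (fderiv ℝ (Hf ∘ Xh s g ∘ mp) p).det +
      b * ((fderiv ℝ (Yf g ∘ mp) p).det -
        (fderiv ℝ ((fun q => pj (zf 1 s) (Yf g q)) ∘ mp) p).det) ≤ √G.det := by
  have hr := zf_pos hA.s0 hA.s1.le
  obtain ⟨Y, hY⟩ : ∃ Y : E 2 → E 2, Y = Yf g ∘ mp := ⟨_, rfl⟩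
  have hYp : Yf g (mp p) = Y p := by rw [hY]; rfl
  rw [hYp] at ho hle
  have hpos : 0 < ‖Y p‖ := hr.trans ho
  have hn : Y p ≠ 0 := norm_pos_iff.1 hpos
  have h0 := h.derRow 0
  have h1 := h.derRow 1
  rw [← hY] at h0 h1
  have hcY : ContinuousAt Y p := by
    rw [hY]
    exact h.derY.continuousAt
  have hev : ∀ᶠ y in 𝓝 p, zf 1 s < ‖Y y‖ := hcY.norm.eventually (lt_mem_nhds ho)
  obtain ⟨e, he⟩ : ∃ e : E 2, e = ‖Y p‖⁻¹ • Y p := ⟨_, rfl⟩
  have hen : ‖e‖ = 1 := by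
    rw [he, norm_smul, norm_inv, norm_norm, inv_mul_cancel₀ hpos.ne']
  obtain ⟨A1, hA1⟩ : ∃ A1, A1 = (e 0) • Rw α 0 + (e 1) • Rw α 1 := ⟨_, rfl⟩
  obtain ⟨A2, hA2⟩ : ∃ A2, A2 = (pe e 0) • Rw α 0 + (pe e 1) • Rw α 1 := ⟨_, rfl⟩
  have hI1 := h.comb e
  have hI2 := h.comb (pe e)
  rw [← hA1] at hI1
  rw [← hA2] at hI2
  -- the maps `F`
  have hF : ∀ᵐ θ ∂(sg 2), (fderiv ℝ (Fm s K g θ ∘ mp) p).det =
      1 / 2 * ((ip (pe e) θ * K (ip e θ)) * cr A1 (α θ)) -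
      1 / 2 * ((ip e θ * (Hr s b K L ‖Y p‖ (ip e θ) - b)) * cr A2 (α θ)) := by
    filter_upwards [h.der] with θ hθ
    have d1 := phider (b := b) hn h0 h1 hA.s0 hA.s1 hA.der θ he hA1 hA2 rfl rfl
    have d2 := (d1.smul_const (tp θ)).add (hθ.smul_const (θ : E 2))
    have d3 : HasFDerivAt (Fm s K g θ ∘ mp) _ p := d2.congr_of_eventuallyEq (by
      filter_upwards [hev] with y hy
      have e2 := Fm_out hA.s0 hA.s1 K g θ (mp y) (by
        have : Yf g (mp y) = Y y := by rw [hY]; rfl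
        rw [this]
        exact hy)
      have e3 : Yf g (mp y) = Y y := by rw [hY]; rfl
      rw [e3] at e2
      exact e2)
    rw [d3.fderiv, det_two, cr_tp, mul_one]
    unfold cr
    simp only [PiLp.sub_apply, PiLp.smul_apply, smul_eq_mul]
    ring
  -- the direction
  have du : HasFDerivAt (fun y => ‖Y y‖⁻¹ • Y y)
      ((innerSL ℝ (‖Y p‖⁻¹ • A2)).smulRight (pe e)) p := by
    rw [← hasFDerivWithinAt_univ, hasFDerivWithinAt_piLp]
    intro i
    rw [hasFDerivWithinAt_univ]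
    fin_cases i
    · have d1 := dirder hn h0 h1 1 0 he hA2
      have e1 : (fun y => (Y y 0 * 1 + Y y 1 * 0) * ‖Y y‖⁻¹) = fun y => (‖Y y‖⁻¹ • Y y) 0 := by
        funext y
        simp [mul_comm]
      rw [e1] at d1
      refine d1.congr_fderiv ?_
      ext v
      simp
      ring
    · have d1 := dirder hn h0 h1 0 1 he hA2
      have e1 : (fun y => (Y y 0 * 0 + Y y 1 * 1) * ‖Y y‖⁻¹) = fun y => (‖Y y‖⁻¹ • Y y) 1 := by
        funext y
        simp [mul_comm]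
      rw [e1] at d1
      refine d1.congr_fderiv ?_
      ext v
      simp
      ring
  have hun : ∀ y, zf 1 s < ‖Y y‖ → ‖‖Y y‖⁻¹ • Y y‖ = 1 := by
    intro y hy
    rw [norm_smul, norm_inv, norm_norm, inv_mul_cancel₀ (hr.trans hy).ne']
  have hsmul : ∀ r : ℝ, r • ((innerSL ℝ (‖Y p‖⁻¹ • A2)).smulRight (pe e)) =
      (innerSL ℝ (r • (‖Y p‖⁻¹ • A2))).smulRight (pe e) := by
    intro r
    ext v
    simp only [_root_.smul_apply, ContinuousLinearMap.smulRight_apply, innerSL_apply_apply,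
      PiLp.smul_apply, smul_eq_mul, real_inner_smul_left]
    ring
  have hP : (fderiv ℝ ((fun q => pj (zf 1 s) (Yf g q)) ∘ mp) p).det = 0 := by
    have d1 : HasFDerivAt ((fun q => pj (zf 1 s) (Yf g q)) ∘ mp) _ p :=
      (du.const_smul (zf 1 s)).congr_of_eventuallyEq (by
        filter_upwards [hev] with y hy
        have e3 : Yf g (mp y) = Y y := by rw [hY]; rfl
        simp only [Function.comp_apply, e3]
        unfold pj
        rw [eh_out hy.le]
        rfl)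
    rw [d1.fderiv, hsmul, det_one]
  have hX : (fderiv ℝ (Hf ∘ Xh s g ∘ mp) p).det = 0 := by
    have e4 : ∀ y, zf 1 s < ‖Y y‖ → (Xh s g ∘ mp) y = s • (‖Y y‖⁻¹ • Y y) := by
      intro y hy
      have e3 : Yf g (mp y) = Y y := by rw [hY]; rfl
      simp only [Function.comp_apply]
      unfold Xh pj
      rw [e3, eh_out hy.le]
      exact Ri_out hA.s0 hA.s1 (hun y hy)
    have d1 : HasFDerivAt (Xh s g ∘ mp) _ p :=
      (du.const_smul s).congr_of_eventuallyEq (by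
        filter_upwards [hev] with y hy
        exact e4 y hy)
    have hXn : ‖(Xh s g ∘ mp) p‖ < 1 := by
      rw [e4 p ho, norm_smul, hun p ho, mul_one, Real.norm_eq_abs, abs_of_pos hA.s0]
      exact hA.s1
    obtain ⟨T, hT, -⟩ := (Fin.uder 1 le_rfl _ hXn).2
    have d2 : HasFDerivAt (Hf ∘ (Xh s g ∘ mp)) _ p := hT.comp p d1
    rw [d2.fderiv, PTWb.det_comp, hsmul, det_one, mul_zero]
  -- the integral
  have hm : ∀ θ : Sph 2, ip e θ ∈ Icc (-1 : ℝ) 1 := ip_mem hen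
  have cK := comp_cont hA.contK hen
  have cH := comp_cont (hA.contH ‖Y p‖) hen
  have cc := ip_cont e
  have cs := ip_cont (pe e)
  have i1 : Integrable (fun θ => (ip (pe e) θ * K (ip e θ)) • α θ) (sg 2) := h.int (cs.mul cK)
  have i2 : Integrable (fun θ => (ip e θ * (Hr s b K L ‖Y p‖ (ip e θ) - b)) • α θ) (sg 2) :=
    h.int (cc.mul (cH.sub continuous_const))
  have i3 : Integrable (fun θ => (ip e θ * Hr s b K L ‖Y p‖ (ip e θ)) • α θ) (sg 2) :=
    h.int (cc.mul cH)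
  have i4 : Integrable (fun θ => ip e θ • α θ) (sg 2) := h.int cc
  have l1 := cr_lin i1 A1
  have l2 := cr_lin i2 A2
  have hint : ∫ θ, (fderiv ℝ (Fm s K g θ ∘ mp) p).det ∂(sg 2) =
      1 / 2 * cr A1 (∫ θ, (ip (pe e) θ * K (ip e θ)) • α θ ∂(sg 2)) -
      1 / 2 * cr A2 (∫ θ, (ip e θ * (Hr s b K L ‖Y p‖ (ip e θ) - b)) • α θ ∂(sg 2)) := by
    rw [integral_congr_ae hF, integral_sub (l1.1.const_mul _) (l2.1.const_mul _),
      integral_const_mul, integral_const_mul, l1.2, l2.2]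
  have hsub : ∫ θ, (ip e θ * (Hr s b K L ‖Y p‖ (ip e θ) - b)) • α θ ∂(sg 2) =
      (∫ θ, (ip e θ * Hr s b K L ‖Y p‖ (ip e θ)) • α θ ∂(sg 2)) - b • A1 := by
    have h2 := integral_sub i3 (i4.smul b)
    simp only [Pi.smul_apply] at h2
    rw [← hI1, ← integral_smul, ← h2]
    refine integral_congr_ae (Eventually.of_forall fun θ => ?_)
    simp only
    rw [smul_smul, ← sub_smul]
    congr 1
    ring
  have hfin := outG hA.contK (hA.contH ‖Y p‖) (hA.out ‖Y p‖ ho hle) hen h.pos h.meas h.bd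
  rw [hI1, hI2] at hfin
  rw [hint, hsub, hX, hP, h.detY]
  refine le_trans (le_of_eq ?_) hfin
  have hd : cr A1 A2 = cr (Rw α 0) (Rw α 1) := by
    have hn2 := norm2 e
    rw [hen] at hn2
    rw [hA1, hA2]
    unfold cr
    simp only [PiLp.add_apply, PiLp.smul_apply, smul_eq_mul, pe_zero, pe_one]
    linear_combination (-(Rw α 0 0 * Rw α 1 1 - Rw α 0 1 * Rw α 1 0)) * hn2
  rw [← hd]
  unfold cr
  simp only [PiLp.sub_apply, PiLp.smul_apply, smul_eq_mul]
  ring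

end Pool.Agent.H72.FA
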