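import Pool.Agent.H72.FA.PtIn

/-!
# The calibration inequality in the charts (helper72)
-/

set_option autoImplicit false

open MeasureTheory Metric Set Filter Topology InnerProductGeometry Matrix Asymptotics

namespace Pool.Agent.H72.FA

open Pool.Agent.H241R3.FV Pool.Agent.N526.CP Pool.Agent.N979.CP

theorem Y_lip {M : Type} [MetricSpace M] {S : OFill 2 M} {t : ℝ}
    {g : Sph 2 → M → ℝ} (hg : FamG (d := 1) S t t 1 g) (q q' : M) :
    ‖Yf g q - Yf g q'‖ ≤ dist q q' := by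
  have := prob
  have h := Pool.Agent.N335.FBLIPG.int_lip (d := 1) one_pos hg q q'
  rw [div_one] at h
  exact h

theorem ptw {M : Type} [MetricSpace M] [CompactSpace M] {S : OFill 2 M} {s b t : ℝ} {K L : ℝ → ℝ}
    (hA : Adm s b K L) (hP : Par 1 t t 1) {g : Sph 2 → M → ℝ} (hg : FamG (d := 1) S t t 1 g)
    (hz : zf 1 t ≤ 2 / Real.pi) (i : S.ι) :
    ∀ᵐ p ∂(volume : Measure (E 2)), p ∈ (S.chart i).U →
      2 * ∫ θ, (fderiv ℝ (Fm s K g θ ∘ (S.chart i).map) p).det ∂(sg 2) -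
      (fderiv ℝ (Hf ∘ Xh s g ∘ (S.chart i).map) p).det +
      b * ((fderiv ℝ (Yf g ∘ (S.chart i).map) p).det -
        (fderiv ℝ ((fun q => pj (zf 1 s) (Yf g q)) ∘ (S.chart i).map) p).det) ≤
      √((S.chart i).G p).det := by
  obtain ⟨ht0, ht1, -, -, -, -⟩ := id hP
  have hYc : Continuous (Yf g) := by
    have h1 : LipschitzWith 1 (Yf g) := LipschitzWith.of_dist_le_mul fun q q' => by
      rw [dist_eq_norm]
      simpa using Y_lip hg q q'
    exact h1.continuous
  have hYm : ContinuousOn (fun y => ‖Yf g ((S.chart i).map y)‖) (S.chart i).U :=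
    (hYc.norm).comp_continuousOn (map_cont (S.chart i))
  have hlev := level (S.chart i).U (S.chart i).isOpen_U _ hYm (zf 1 s)
  filter_upwards [Pool.Agent.N701.FB_XDIFG.main 1 le_rfl M S t t 1 g hP hg i, hlev] with p hp hl hpU
  obtain ⟨α, hαm, hα1, hα2, hX⟩ := hp hpU
  have hYX : ∀ q, Zf (Xf (d := 1) g q) = Yf g q := fun q =>
    ((Fin.inv 1 le_rfl).2.1 t ht0 ht1 _ (hg.range q)).2
  have hXn : ‖Xf (d := 1) g ((S.chart i).map p)‖ < 1 :=
    (((Fin.inv 1 le_rfl).2.1 t ht0 ht1 _ (hg.range ((S.chart i).map p))).1).trans_lt ht1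
  obtain ⟨hpd, hZ, -⟩ := Fin.der 1 le_rfl _ hXn
  have hdY : HasFDerivAt (Yf g ∘ (S.chart i).map)
      (cl (Mx (sg 2) (fun θ : Sph 2 => (θ : E 2)) α)) p := by
    have h1 := hZ.comp p hX
    rw [PTWb.cl_mul] at h1
    have h2 : DZ (Xf (d := 1) g ((S.chart i).map p)) *
        Lm (Xf (d := 1) g ((S.chart i).map p)) α =
        Mx (sg 2) (fun θ : Sph 2 => (θ : E 2)) α := by
      unfold Lm
      exact Matrix.mul_nonsing_inv_cancel_left _ _ (isUnit_iff_ne_zero.2 hpd.det_pos.ne')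
    rw [h2] at h1
    refine h1.congr_of_eventuallyEq (Eventually.of_forall fun y => ?_)
    exact (hYX _).symm
  have hpt : Pt g (S.chart i).map ((S.chart i).G p) p α := by
    refine ⟨(S.chart i).pos_G p hpU, hαm, hα1, ?_, hdY⟩
    filter_upwards [hα2] with θ hθ v
    have := hθ v
    rwa [div_one] at this
  have hzt : ‖Yf g ((S.chart i).map p)‖ ≤ zf 1 t := hg.range _
  rcases le_or_gt ‖Yf g ((S.chart i).map p)‖ (zf 1 s) with h | h
  · exact pt_in hA hpt h (hl hpU)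
  · exact pt_out hA hpt h (hzt.trans hz)

end Pool.Agent.H72.FA
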