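import Pool.Graph.R_pool_sql_team_seeded_63374d34.N979.CP.FB

/-!
# Orientable fillings of the circle: a calibration glued at the level `|Y| = ρ₀` (helper72)

Statements of the parts.
-/

set_option autoImplicit false

open MeasureTheory Metric Set Filter Topology InnerProductGeometry Matrix

namespace Pool.Agent.H72.FA

open Pool.Agent.H241R3.FV Pool.Agent.N526.CP Pool.Agent.N979.CP

/-- the mean of an even function of the coordinate over the circle -/
noncomputable def av (f : ℝ → ℝ) : ℝ := ∫ θ : Sph 2, f ((θ : E 2) 0) ∂(sg 2)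

/-- The certificate for the comass of the form with the weights: `1 / W` is a weight of mass at most
one, and the two Gram matrices are bounded by diagonal matrices. -/
structure Cert (W H K : ℝ → ℝ) : Prop where
  contW : ContinuousOn W (Icc (-1) 1)
  contH : ContinuousOn H (Icc (-1) 1)
  contK : ContinuousOn K (Icc (-1) 1)
  posW : ∀ x ∈ Icc (-1 : ℝ) 1, 0 < W x
  mass : av (fun x => (W x)⁻¹) ≤ 1
  gram : ∃ τ τ' : ℝ, 0 < τ ∧ 0 < τ' ∧
    av (fun x => x ^ 2 * W x) ≤ 2 / τ ∧ av (fun x => x ^ 2 * (H x ^ 2 * W x)) ≤ 2 / τ' ∧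
    av (fun x => x ^ 2 * (H x * W x)) ^ 2 ≤
      (2 / τ - av (fun x => x ^ 2 * W x)) * (2 / τ' - av (fun x => x ^ 2 * (H x ^ 2 * W x))) ∧
    av (fun x => (1 - x ^ 2) * (K x ^ 2 * W x)) ≤ 2 * τ ∧
    av (fun x => (1 - x ^ 2) * W x) ≤ 2 * τ' ∧
    av (fun x => (1 - x ^ 2) * (K x * W x)) ^ 2 ≤
      (2 * τ - av (fun x => (1 - x ^ 2) * (K x ^ 2 * W x))) *
        (2 * τ' - av (fun x => (1 - x ^ 2) * W x))

/-- the radius of the inner region -/
noncomputable def r0 : ℝ := zf 1 (12 / 13)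

/-- `√(1 - s₀² x²)` -/
noncomputable def qf (x : ℝ) : ℝ := √(1 - (12 / 13 * x) ^ 2)

/-- `1 - κ² x²` -/
noncomputable def Qf (x : ℝ) : ℝ := 1 - 99 / 100 * x ^ 2

/-- the coefficient of the outer form -/
noncomputable def Kf (x : ℝ) : ℝ := -(5 / 3) + 3 / 2 / Qf x

/-- its derivative -/
noncomputable def Gf (x : ℝ) : ℝ := -(5 / 3) + 3 / 2 * (2 / 100 - Qf x) / Qf x ^ 2

/-- the coefficient of the form at the level `ρ` -/
noncomputable def Hf' (ρ : ℝ) (x : ℝ) : ℝ :=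
  2 * (12 / 13) * (5 / 13) ^ 2 / ρ * ((qf x)⁻¹) ^ 3 + (ρ - r0) / ρ * Gf x - 2

/-- the weights -/
noncomputable def W0 (x : ℝ) : ℝ := 13 / 5 * qf x ^ 2
noncomputable def W1 (x : ℝ) : ℝ := 2 - 2 / 17 / (1 - 15 / 16 * x ^ 2)

/-- NUM0: the certificate at the inner end -/
def S_NUM0 : Prop := Cert W0 (fun x => Hf' r0 x - 1 / 3) (fun x => Kf x + 1 / 3)

/-- NUM1: the certificate at the outer end -/
def S_NUM1 : Prop := Cert W1 (fun x => Hf' (2 / Real.pi) x - (-(2 / 3))) (fun x => Kf x + -(2 / 3))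

/-- NUM2: the numerical inequality for the constant -/
def S_NUM2 : Prop := 47 / 50 * (2 * Real.pi) <
  8 * Real.arcsin (12 / 13) - 2 * Real.pi * (1 - 5 / 13) +
    (2 / Real.pi - r0) * (4 * -(5 / 3) + 3 / 2 * ∫ u in (-1 : ℝ)..1, 2 / Qf u) -
    2 * Real.pi * ((2 / Real.pi) ^ 2 - r0 ^ 2)

end Pool.Agent.H72.FA
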